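import Pool.Agent.Y990.OA.Stm2
import Pool.Agent.Y737.OA.Chain

set_option autoImplicit false

open MeasureTheory Set

/-!
Connection along a chain of boxes with a general step (project OA; the case of step one is due to
helper737).
-/

namespace Pool.Agent.Y990.OA

open Pool.Agent.Y990.CB
open Pool.Agent.Y737.OA (hol_shift)

lemma single_mem' {d : ℕ} (i : Fin d) (j : ℕ) :
    (Pi.single i (j : ℤ) : Z d) ∈ Bo (0 : Z d) j := by
  intro i'
  by_cases h : i' = i
  · subst h
    simp
  · simp [h]

lemma single_step {d : ℕ} (i : Fin d) (j w : ℕ) (i' : Fin d) :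
    |(Pi.single i (((j + 1) * w : ℕ) : ℤ) : Z d) i' - (Pi.single i ((j * w : ℕ) : ℤ) : Z d) i'| ≤
      (w : ℤ) := by
  by_cases h : i' = i
  · subst h
    rw [Pi.single_eq_same, Pi.single_eq_same]
    push_cast
    have : ((j : ℤ) + 1) * w - j * w = w := by ring
    rw [this, abs_of_nonneg (by positivity)]
  · rw [Pi.single_eq_of_ne h, Pi.single_eq_of_ne h]
    simp

theorem chain2 : S_chain2 := by
  intro d M p i k J w l hkl hlN
  set z : ℕ → Z d := fun j => Pi.single i ((j * w : ℕ) : ℤ) with hz
  set H : ℕ → Set (M.ι → Bool) := fun j =>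
    {ω | ω ∉ Lk M (Bo (0 + z j) (l + w)) (Bo (0 + z j) k) (Fr (0 + z j) (l + w))} with hH
  set T : ℕ → Set (M.ι → Bool) := fun j => Ta M (0 + z j) (k + w) l with hT
  have hsub : {ω | ω ∉ Lk M (Bo 0 (2 * (J * w))) (Bo 0 k)
      (Bo (Pi.single i ((J * w : ℕ) : ℤ)) k)} ⊆
      (⋃ j ∈ Finset.range (J + 1), H j) ∪ ⋃ j ∈ Finset.range J, T j := by
    intro ω hω
    by_contra hcon
    apply hω
    simp only [mem_union, mem_iUnion, Finset.mem_range, exists_prop, not_or, not_exists,
      not_and] at hcon
    obtain ⟨h1, h2⟩ := hcon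
    have h3 : ∀ j, j < J + 1 → ∃ x ∈ Bo (z j) k, ∃ y ∈ Fr (z j) (l + w),
        (G M ω (Bo (z j) (l + w))).Reachable x y := by
      intro j hj
      have := h1 j hj
      simp only [hH, zero_add, mem_ofPred_eq, not_not] at this
      exact this
    have h3' : ∀ j, ∃ x : Z d, j < J + 1 → x ∈ Bo (z j) k ∧ ∃ y ∈ Fr (z j) (l + w),
        (G M ω (Bo (z j) (l + w))).Reachable x y := by
      intro j
      by_cases hj : j < J + 1
      · obtain ⟨x, hx, y, hy, h⟩ := h3 j hj
        exact ⟨x, fun _ => ⟨hx, y, hy, h⟩⟩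
      · exact ⟨0, fun h => absurd h hj⟩
    choose x hx using h3'
    have hstep : ∀ j, j < J → (G M ω (Bo 0 (2 * (J * w)))).Reachable (x j) (x (j + 1)) := by
      intro j hj
      obtain ⟨a1, y, a2, a3⟩ := hx j (by omega)
      obtain ⟨b1, y', b2, b3⟩ := hx (j + 1) (by omega)
      have hzz : z (j + 1) ∈ Bo (z j) w := by
        intro i'
        exact single_step i j w i'
      have c1 : x j ∈ Bo (z j) (k + w) := Bo_mono _ (by omega) a1
      have c2 : x (j + 1) ∈ Bo (z j) (k + w) := Bo_sub hzz le_rfl b1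
      have d2 : Am M ω (z j) l (x (j + 1)) := by
        refine exit_Am (Bo_mono _ hkl c2) ?_ b3
        by_cases hy : y' ∈ Bo (z j) l
        · refine Or.inr ⟨hy, ?_⟩
          obtain ⟨i', hi'⟩ := b2.2
          refine ⟨i', le_antisymm (hy i') ?_⟩
          have e1 := hzz i'
          have e2 := abs_sub_le (y' i') (z j i') (z (j + 1) i')
          rw [abs_sub_comm (z j i')] at e2
          push_cast at hi' e1
          omega
        · exact Or.inl hy
      have d1 : Am M ω (z j) l (x j) := by
        refine exit_Am (Bo_mono _ hkl c1) ?_ a3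
        by_cases hy : y ∈ Bo (z j) l
        · refine Or.inr ⟨hy, ?_⟩
          obtain ⟨i', hi'⟩ := a2.2
          refine ⟨i', le_antisymm (hy i') ?_⟩
          push_cast at hi'
          omega
        · exact Or.inl hy
      have e : (G M ω (Bo (z j) l)).Reachable (x j) (x (j + 1)) := by
        by_contra hne
        apply h2 j hj
        simp only [hT, zero_add]
        exact ⟨x j, c1, x (j + 1), c2, d1, d2, hne⟩
      refine reach_mono ?_ e
      have hjw : j * w ≤ J * w := Nat.mul_le_mul_right _ hj.le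
      exact Bo_sub (D := j * w) (single_mem' i (j * w)) (by omega)
    have hall : ∀ j, j ≤ J → (G M ω (Bo 0 (2 * (J * w)))).Reachable (x 0) (x j) := by
      intro j
      induction j with
      | zero => exact fun _ => SimpleGraph.Reachable.refl _
      | succ j ih => exact fun hj => (ih (by omega)).trans (hstep j (by omega))
    refine ⟨x 0, ?_, x J, (hx J (by omega)).1, hall J le_rfl⟩
    have := (hx 0 (by omega)).1
    simpa [hz] using this
  have hHm : ∀ j, (mu M p).real (H j) = hol M p k (l + w) := fun j => hol_shift M p (z j) k (l + w)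
  have hTm : ∀ j, (mu M p).real (T j) = (mu M p).real (Ta M 0 (k + w) l) := fun j =>
    Ta_shift M p 0 (z j) (k + w) l
  calc (mu M p).real {ω | ω ∉ Lk M (Bo 0 (2 * (J * w))) (Bo 0 k)
        (Bo (Pi.single i ((J * w : ℕ) : ℤ)) k)}
      ≤ (mu M p).real ((⋃ j ∈ Finset.range (J + 1), H j) ∪ ⋃ j ∈ Finset.range J, T j) :=
        measureReal_mono hsub
    _ ≤ (mu M p).real (⋃ j ∈ Finset.range (J + 1), H j) +
        (mu M p).real (⋃ j ∈ Finset.range J, T j) := measureReal_union_le _ _
    _ ≤ ∑ j ∈ Finset.range (J + 1), (mu M p).real (H j) +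
        ∑ j ∈ Finset.range J, (mu M p).real (T j) :=
        add_le_add (measureReal_biUnion_finset_le _ _) (measureReal_biUnion_finset_le _ _)
    _ = (J + 1) * hol M p k (l + w) + J * (mu M p).real (Ta M 0 (k + w) l) := by
        simp [hHm, hTm]

end Pool.Agent.Y990.OA
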