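import Pool.Agent.Y990.OA.Stm
import Pool.Agent.Y990.CB.MG

set_option autoImplicit false

open MeasureTheory Set

/-!
Project OA: holes of polynomial size at the critical point, from the two-arm bound and the chain.
-/

namespace Pool.Agent.Y990.OA

open Pool.Agent.W783.PC (pm DepOn Inc)
open Pool.Agent.Y990.CB

noncomputable section

variable {d : ℕ}

/-- Smaller boxes are easier to reach. -/
theorem hol_mono (M : Mod d) (p : unitInterval) (k : ℕ) {n n' : ℕ} (hk : k ≤ n) (h : n ≤ n') :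
    hol M p k n ≤ hol M p k n' := by
  unfold hol
  refine measureReal_mono ?_ (measure_ne_top _ _)
  intro ω hω hL
  refine hω ?_
  obtain ⟨x, hx, y, hy, hr⟩ := hL
  have hx' : x ∈ Bo (0 : Z d) n := Bo_mono 0 hk hx
  have hy' : y ∉ Bo (0 : Z d) n ∨ y ∈ Fr (0 : Z d) n := by
    by_cases hb : y ∈ Bo (0 : Z d) n
    · right
      refine ⟨hb, ?_⟩
      obtain ⟨i, hi⟩ := hy.2
      refine ⟨i, le_antisymm (hb i) ?_⟩
      rw [hi]
      exact_mod_cast h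
    · exact Or.inl hb
  obtain ⟨x', h1, h2⟩ := exit_Am hx' hy' hr
  exact ⟨x, hx, x', h1, h2⟩

theorem hol_nonneg (M : Mod d) (p : unitInterval) (k n : ℕ) : 0 ≤ hol M p k n :=
  measureReal_nonneg

theorem hol_of (h1 : S_two3) (h2 : S_chain) : S_hol := by
  intro d M hd hM hQ
  obtain ⟨A1, hA1⟩ := h1 d M hd hM hQ
  obtain ⟨C0, hC0, hc⟩ := conP (by omega) M hM hQ
  set p := pc M with hp
  set e := 2 * d ^ 2 + 3 * d with he
  -- the constants
  obtain ⟨D, hD⟩ : ∃ D : ℕ, (2 * C0) ^ 2 + (12 * 10 ^ 14) ^ 48 ≤ (2 : ℝ) ^ D :=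
    (pow_unbounded_of_one_lt _ (by norm_num : (1 : ℝ) < 2)).imp fun _ h => h.le
  refine ⟨A1 + 2 * e + D + 3, 1 / (12 * 10 ^ 14), by norm_num, fun k n hn => ?_⟩
  have hk2 : 2 ≤ k + 2 := by omega
  set L := (n - 1) / 2 with hL
  have hk2R : (2 : ℝ) ≤ (k : ℝ) + 2 := by
    have : (0 : ℝ) ≤ k := Nat.cast_nonneg k
    linarith
  -- the size of L
  have hbig : (k + 2) ^ (A1 + 2 * e) * 2 ^ D * (k + 2) ≤ L := by
    have e1 : (k + 2) ^ (A1 + 2 * e + D + 3) =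
        (k + 2) ^ (A1 + 2 * e) * (k + 2) ^ D * (k + 2) * ((k + 2) * (k + 2)) := by
      rw [show A1 + 2 * e + D + 3 = (A1 + 2 * e) + D + 1 + 2 by ring, pow_add, pow_add, pow_add]
      ring
    have e2 : 2 ^ D ≤ (k + 2) ^ D := Nat.pow_le_pow_left hk2 D
    have e3 : (k + 2) ^ (A1 + 2 * e) * 2 ^ D * (k + 2) ≤
        (k + 2) ^ (A1 + 2 * e) * (k + 2) ^ D * (k + 2) :=
      Nat.mul_le_mul_right _ (Nat.mul_le_mul_left _ e2)
    have e4 : 4 ≤ (k + 2) * (k + 2) := Nat.mul_le_mul hk2 hk2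
    have e5 : (k + 2) ^ (A1 + 2 * e) * 2 ^ D * (k + 2) * 4 ≤ n := by
      refine le_trans (Nat.mul_le_mul e3 e4) ?_
      rw [← e1]
      exact hn
    have e6 : 1 ≤ (k + 2) ^ (A1 + 2 * e) * 2 ^ D * (k + 2) := by
      have : 0 < (k + 2) ^ (A1 + 2 * e) * 2 ^ D * (k + 2) := by positivity
      omega
    omega
  have hpow1 : 1 ≤ (k + 2) ^ (A1 + 2 * e) := Nat.one_le_pow _ _ (by omega)
  have hpowD : 1 ≤ 2 ^ D := Nat.one_le_pow _ _ (by omega)
  have hkL : k + 2 ≤ L := by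
    refine le_trans ?_ hbig
    exact Nat.le_mul_of_pos_left _ (by positivity)
  have hDL : (2 : ℝ) ^ D * ((k : ℝ) + 2) ^ (2 * e) ≤ L := by
    have h3 : 2 ^ D * (k + 2) ^ (2 * e) ≤ L := by
      refine le_trans ?_ hbig
      have h4 : (k + 2) ^ (2 * e) ≤ (k + 2) ^ (A1 + 2 * e) := Nat.pow_le_pow_right (by omega) (by omega)
      calc 2 ^ D * (k + 2) ^ (2 * e) ≤ 2 ^ D * (k + 2) ^ (A1 + 2 * e) := Nat.mul_le_mul_left _ h4
        _ = (k + 2) ^ (A1 + 2 * e) * 2 ^ D * 1 := by ring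
        _ ≤ _ := Nat.mul_le_mul_left _ (by omega)
    exact_mod_cast h3
  have hA1L : (k + 2) ^ A1 ≤ L := by
    refine le_trans ?_ hbig
    have h4 : (k + 2) ^ A1 ≤ (k + 2) ^ (A1 + 2 * e) := Nat.pow_le_pow_right (by omega) (by omega)
    calc (k + 2) ^ A1 ≤ (k + 2) ^ (A1 + 2 * e) * 1 * 1 := by simpa using h4
      _ ≤ _ := Nat.mul_le_mul (Nat.mul_le_mul_left _ hpowD) (by omega)
  set N := 2 * L + 1 with hN
  have hNn : N ≤ n := by omega
  have hL1 : 1 ≤ L := by omega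
  have hLR : (1 : ℝ) ≤ L := by exact_mod_cast hL1
  have hpe1 : (1 : ℝ) ≤ ((k : ℝ) + 2) ^ (2 * e) := one_le_pow₀ (by linarith)
  have hDL1 : (2 * C0) ^ 2 + (12 * 10 ^ 14) ^ 48 ≤ (L : ℝ) := by
    refine hD.trans (le_trans ?_ hDL)
    exact le_mul_of_one_le_right (by positivity) hpe1
  -- disconnection of two boxes
  have hd1 : 0 < d := by omega
  set i : Fin d := ⟨0, hd1⟩ with hi
  set v : Z d := Pi.single i (N : ℤ) with hv
  have hnv : nm v = N := nm_single i N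
  have hcond : C0 * ((k : ℝ) + 1) ^ e * ((2 : ℕ) : ℝ) ≤ √(nm v : ℝ) := by
    rw [hnv]
    apply Real.le_sqrt_of_sq_le
    have f1 : ((k : ℝ) + 1) ^ e ≤ ((k : ℝ) + 2) ^ e :=
      pow_le_pow_left₀ (by positivity) (by linarith) e
    have f2 : (C0 * ((k : ℝ) + 1) ^ e * ((2 : ℕ) : ℝ)) ^ 2 ≤
        (2 * C0) ^ 2 * ((k : ℝ) + 2) ^ (2 * e) := by
      have : (C0 * ((k : ℝ) + 1) ^ e * ((2 : ℕ) : ℝ)) ^ 2 =
          (2 * C0) ^ 2 * (((k : ℝ) + 1) ^ e) ^ 2 := by push_cast; ring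
      rw [this, mul_comm 2 e, pow_mul]
      exact mul_le_mul_of_nonneg_left (pow_le_pow_left₀ (by positivity) f1 2) (by positivity)
    have f3 : (2 * C0) ^ 2 ≤ (2 : ℝ) ^ D := by
      have : (0 : ℝ) ≤ (12 * 10 ^ 14) ^ 48 := by positivity
      linarith
    have f4 : (L : ℝ) ≤ N := by
      have : L ≤ N := by omega
      exact_mod_cast this
    calc (C0 * ((k : ℝ) + 1) ^ e * ((2 : ℕ) : ℝ)) ^ 2 ≤ (2 * C0) ^ 2 * ((k : ℝ) + 2) ^ (2 * e) := f2
      _ ≤ (2 : ℝ) ^ D * ((k : ℝ) + 2) ^ (2 * e) := mul_le_mul_of_nonneg_right f3 (by positivity)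
      _ ≤ L := hDL
      _ ≤ N := f4
  have hcon := hc v k 2 (by norm_num) hcond
  rw [hnv] at hcon
  have hfail : 1 / (2 * 10 ^ 14) ≤
      (mu M p).real {ω | ω ∉ Lk M (Bo 0 (2 * N)) (Bo 0 k) (Bo v k)} := by
    have e1 : {ω | ω ∉ Lk M (Bo 0 (2 * N)) (Bo 0 k) (Bo v k)} =
        (Lk M (Bo 0 (2 * N)) (Bo 0 k) (Bo v k))ᶜ := rfl
    rw [e1, probReal_compl_eq_one_sub (Lk_meas M _ _ _)]
    have e2 : (1 : ℝ) / (10 ^ 14 * ((2 : ℕ) : ℝ)) = 1 / (2 * 10 ^ 14) := by norm_num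
    rw [e2] at hcon
    linarith
  have hch := h2 d M p i k N (2 * L) (by omega) (by omega)
  rw [← hv] at hch
  have hT := hA1 k L hA1L
  set H := hol M p k n with hH
  have hH0 : 0 ≤ H := hol_nonneg M p k n
  have hH1 : hol M p k (2 * L) ≤ H := hol_mono M p k (by omega) (by omega)
  have hH2 : hol M p k (2 * L + 1) ≤ H := hol_mono M p k (by omega) hNn
  set w : ℝ := (L : ℝ) ^ (-(1 / 48 : ℝ)) with hw
  have hw0 : 0 ≤ w := by positivity
  have hw1 : w ≤ 1 / (12 * 10 ^ 14) := by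
    have g1 : (12 * 10 ^ 14 : ℝ) ≤ (L : ℝ) ^ (1 / 48 : ℝ) := by
      have g2 : ((12 * 10 ^ 14 : ℝ)) ^ 48 ≤ (L : ℝ) := by
        have : (0 : ℝ) ≤ (2 * C0) ^ 2 := by positivity
        linarith
      calc (12 * 10 ^ 14 : ℝ) = (((12 * 10 ^ 14 : ℝ)) ^ 48) ^ (1 / 48 : ℝ) := by
            have g3 : (1 / 48 : ℝ) = ((48 : ℕ) : ℝ)⁻¹ := by norm_num
            rw [g3, Real.pow_rpow_inv_natCast (by positivity) (by norm_num)]
        _ ≤ (L : ℝ) ^ (1 / 48 : ℝ) :=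
            Real.rpow_le_rpow (by positivity) g2 (by norm_num)
    rw [hw, Real.rpow_neg (by positivity), ← one_div]
    exact one_div_le_one_div_of_le (by norm_num) g1
  have hT' : (mu M p).real (Ta M 0 (k + 1) (2 * L)) ≤ w * ((L : ℝ)⁻¹ + H) := by
    refine hT.trans ?_
    exact mul_le_mul_of_nonneg_left (by linarith) hw0
  have hNR : (N : ℝ) = 2 * L + 1 := by rw [hN]; push_cast; ring
  have hN3 : (N : ℝ) * (L : ℝ)⁻¹ ≤ 3 := by
    rw [hNR, ← div_eq_mul_inv, div_le_iff₀ (by linarith)]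
    linarith
  have hNN : (N : ℝ) ≤ n := by exact_mod_cast hNn
  have hN1 : (1 : ℝ) ≤ N := by rw [hNR]; linarith
  have hn0 : (0 : ℝ) < n := by linarith
  have hmain : 1 / (2 * 10 ^ 14 : ℝ) ≤ 3 * n * H + 3 * w := by
    refine hfail.trans (hch.trans ?_)
    have s1 : ((N : ℝ) + 1) * hol M p k (2 * L + 1) ≤ (2 * n) * H :=
      mul_le_mul (by linarith) hH2 (hol_nonneg M p k _) (by linarith)
    have s2 : (N : ℝ) * (mu M p).real (Ta M 0 (k + 1) (2 * L)) ≤ 3 * w + n * H := by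
      calc (N : ℝ) * (mu M p).real (Ta M 0 (k + 1) (2 * L)) ≤ N * (w * ((L : ℝ)⁻¹ + H)) :=
            mul_le_mul_of_nonneg_left hT' (by linarith)
        _ = w * (N * (L : ℝ)⁻¹) + w * (N * H) := by ring
        _ ≤ w * 3 + 1 * (n * H) := by
            refine add_le_add (mul_le_mul_of_nonneg_left hN3 hw0) ?_
            refine mul_le_mul (hw1.trans (by norm_num)) (mul_le_mul_of_nonneg_right hNN hH0)
              (by positivity) (by norm_num)
        _ = _ := by ring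
    linarith
  have hfin : 1 / (12 * 10 ^ 14 : ℝ) ≤ n * H := by
    have : (1 : ℝ) / (2 * 10 ^ 14) = 6 * (1 / (12 * 10 ^ 14)) := by norm_num
    nlinarith
  rw [div_le_iff₀ hn0]
  linarith

end

end Pool.Agent.Y990.OA
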