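import Pool.Agent.Y990.OA.Stm3
import Pool.Agent.Y990.OA.Hol2

set_option autoImplicit false

open MeasureTheory Set

/-!
Project OA: holes of polynomial size at the critical point, from the two-arm bound and the chain
with a long step.
-/

namespace Pool.Agent.Y990.OA

open Pool.Agent.W783.PC (pm DepOn Inc)
open Pool.Agent.Y990.CB

noncomputable section

variable {d : ℕ}

theorem hol3_of (h1 : S_two3) (h2 : S_chain2) : S_hol3 := by
  intro d M hd hM hQ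
  obtain ⟨A1, hA1⟩ := h1 d M hd hM hQ
  obtain ⟨C0, hC0, hc⟩ := conP (by omega) M hM hQ
  set p := pc M with hp
  set e := 2 * d ^ 2 + 3 * d with he
  -- the constants
  obtain ⟨D, hD⟩ : ∃ D : ℕ, (2 * C0) ^ 2 + (24 * 10 ^ 14) ^ 48 ≤ (2 : ℝ) ^ D :=
    (pow_unbounded_of_one_lt _ (by norm_num : (1 : ℝ) < 2)).imp fun _ h => h.le
  refine ⟨2 * A1 + 2 * e + D + 4, 1 / (48 * 10 ^ 14), by omega, by norm_num,
    fun k w n hkw hn => ?_⟩
  have hk2 : 2 ≤ w + 1 := by omega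
  set L := (n - w) / 2 with hL
  have hk2R : (2 : ℝ) ≤ (w : ℝ) + 1 := by
    have : (1 : ℝ) ≤ w := by
      have : 1 ≤ w := by omega
      exact_mod_cast this
    linarith
  -- the size of L
  have hbig : (w + 1) ^ (2 * A1 + 2 * e) * 2 ^ D * (w + 1) ≤ L := by
    have e1 : (w + 1) ^ (2 * A1 + 2 * e + D + 4) =
        (w + 1) ^ (2 * A1 + 2 * e) * (w + 1) ^ D * (w + 1) * ((w + 1) * (w + 1)) * (w + 1) := by
      rw [show 2 * A1 + 2 * e + D + 4 = (2 * A1 + 2 * e) + D + 1 + 2 + 1 by ring, pow_add, pow_add,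
        pow_add, pow_add]
      ring
    have e2 : 2 ^ D ≤ (w + 1) ^ D := Nat.pow_le_pow_left hk2 D
    have e3 : (w + 1) ^ (2 * A1 + 2 * e) * 2 ^ D * (w + 1) ≤
        (w + 1) ^ (2 * A1 + 2 * e) * (w + 1) ^ D * (w + 1) :=
      Nat.mul_le_mul_right _ (Nat.mul_le_mul_left _ e2)
    have e4 : 4 ≤ (w + 1) * (w + 1) := Nat.mul_le_mul hk2 hk2
    have e5 : (w + 1) ^ (2 * A1 + 2 * e) * 2 ^ D * (w + 1) * 4 * (w + 1) ≤ n := by
      refine le_trans (Nat.mul_le_mul_right _ (Nat.mul_le_mul e3 e4)) ?_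
      rw [← e1]
      exact hn
    have e6 : w + 1 ≤ (w + 1) ^ (2 * A1 + 2 * e) * 2 ^ D * (w + 1) :=
      Nat.le_mul_of_pos_left _ (by positivity)
    set q := (w + 1) ^ (2 * A1 + 2 * e) * 2 ^ D * (w + 1) with hq
    have e7 : q * 4 * 2 ≤ q * 4 * (w + 1) := Nat.mul_le_mul_left _ hk2
    omega
  have hpow1 : 1 ≤ (w + 1) ^ (2 * A1 + 2 * e) := Nat.one_le_pow _ _ (by omega)
  have hpowD : 1 ≤ 2 ^ D := Nat.one_le_pow _ _ (by omega)
  have hkL : w + 1 ≤ L := by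
    refine le_trans ?_ hbig
    exact Nat.le_mul_of_pos_left _ (by positivity)
  have hDL : (2 : ℝ) ^ D * ((w : ℝ) + 1) ^ (2 * e) ≤ L := by
    have h3 : 2 ^ D * (w + 1) ^ (2 * e) ≤ L := by
      refine le_trans ?_ hbig
      have h4 : (w + 1) ^ (2 * e) ≤ (w + 1) ^ (2 * A1 + 2 * e) :=
        Nat.pow_le_pow_right (by omega) (by omega)
      calc 2 ^ D * (w + 1) ^ (2 * e) ≤ 2 ^ D * (w + 1) ^ (2 * A1 + 2 * e) :=
            Nat.mul_le_mul_left _ h4
        _ = (w + 1) ^ (2 * A1 + 2 * e) * 2 ^ D * 1 := by ring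
        _ ≤ _ := Nat.mul_le_mul_left _ (by omega)
    exact_mod_cast h3
  have hA1L : (k + w - 1 + 2) ^ A1 ≤ L := by
    refine le_trans ?_ hbig
    have h4 : (k + w - 1 + 2) ^ A1 ≤ (w + 1) ^ (2 * A1) := by
      rw [pow_mul]
      refine Nat.pow_le_pow_left ?_ A1
      have : k + w - 1 + 2 ≤ 2 * (w + 1) := by omega
      nlinarith
    have h5 : (w + 1) ^ (2 * A1) ≤ (w + 1) ^ (2 * A1 + 2 * e) :=
      Nat.pow_le_pow_right (by omega) (by omega)
    calc (k + w - 1 + 2) ^ A1 ≤ (w + 1) ^ (2 * A1 + 2 * e) * 1 * 1 := by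
          rw [mul_one, mul_one]; exact h4.trans h5
      _ ≤ _ := Nat.mul_le_mul (Nat.mul_le_mul_left _ hpowD) (by omega)
  -- the number of steps
  set J := n / w + 1 with hJ
  set N := J * w with hN
  have hwpos : 0 < w := by omega
  have hnN : n ≤ N := by
    have := Nat.lt_div_mul_add (a := n) hwpos
    rw [hN, hJ, Nat.add_mul, one_mul]
    omega
  have hNn : N ≤ 2 * n := by
    have h3 : n / w * w ≤ n := Nat.div_mul_le_self n w
    rw [hN, hJ, Nat.add_mul, one_mul]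
    omega
  have hL1 : 1 ≤ L := by omega
  have hLR : (1 : ℝ) ≤ L := by exact_mod_cast hL1
  have hpe1 : (1 : ℝ) ≤ ((w : ℝ) + 1) ^ (2 * e) := one_le_pow₀ (by linarith)
  have hDL1 : (2 * C0) ^ 2 + (24 * 10 ^ 14) ^ 48 ≤ (L : ℝ) := by
    refine hD.trans (le_trans ?_ hDL)
    exact le_mul_of_one_le_right (by positivity) hpe1
  -- disconnection of two boxes
  have hd1 : 0 < d := by omega
  set i : Fin d := ⟨0, hd1⟩ with hi
  set v : Z d := Pi.single i (N : ℤ) with hv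
  have hnv : nm v = N := nm_single i N
  have hcond : C0 * ((k : ℝ) + 1) ^ e * ((2 : ℕ) : ℝ) ≤ √(nm v : ℝ) := by
    rw [hnv]
    apply Real.le_sqrt_of_sq_le
    have hkwR : (k : ℝ) + 1 ≤ w := by exact_mod_cast hkw
    have f1 : ((k : ℝ) + 1) ^ e ≤ ((w : ℝ) + 1) ^ e :=
      pow_le_pow_left₀ (by positivity) (by linarith) e
    have f2 : (C0 * ((k : ℝ) + 1) ^ e * ((2 : ℕ) : ℝ)) ^ 2 ≤
        (2 * C0) ^ 2 * ((w : ℝ) + 1) ^ (2 * e) := by
      have : (C0 * ((k : ℝ) + 1) ^ e * ((2 : ℕ) : ℝ)) ^ 2 =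
          (2 * C0) ^ 2 * (((k : ℝ) + 1) ^ e) ^ 2 := by push_cast; ring
      rw [this, mul_comm 2 e, pow_mul]
      exact mul_le_mul_of_nonneg_left (pow_le_pow_left₀ (by positivity) f1 2) (by positivity)
    have f3 : (2 * C0) ^ 2 ≤ (2 : ℝ) ^ D := by
      have : (0 : ℝ) ≤ (24 * 10 ^ 14) ^ 48 := by positivity
      linarith
    have f4 : (L : ℝ) ≤ N := by
      have : L ≤ N := by omega
      exact_mod_cast this
    calc (C0 * ((k : ℝ) + 1) ^ e * ((2 : ℕ) : ℝ)) ^ 2 ≤ (2 * C0) ^ 2 * ((w : ℝ) + 1) ^ (2 * e) := f2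
      _ ≤ (2 : ℝ) ^ D * ((w : ℝ) + 1) ^ (2 * e) := mul_le_mul_of_nonneg_right f3 (by positivity)
      _ ≤ L := hDL
      _ ≤ N := f4
  have hcon := hc v k 2 (by norm_num) hcond
  rw [hnv] at hcon
  have hfail : 1 / (2 * 10 ^ 14) ≤
      (mu M p).real {ω | ω ∉ Lk M (Bo 0 (2 * N)) (Bo 0 k) (Bo v k)} := by
    have e1 : {ω | ω ∉ Lk M (Bo 0 (2 * N)) (Bo 0 k) (Bo v k)} =
        (Lk M (Bo 0 (2 * N)) (Bo 0 k) (Bo v k))ᶜ := rfl
    rw [e1, probReal_compl_eq_one_sub (Lk_meas M _ _ _)]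
    have e2 : (1 : ℝ) / (10 ^ 14 * ((2 : ℕ) : ℝ)) = 1 / (2 * 10 ^ 14) := by norm_num
    rw [e2] at hcon
    linarith
  have hch := h2 d M p i k J w (2 * L) (by omega) (by omega)
  rw [← hN, ← hv] at hch
  have hT := hA1 (k + w - 1) L hA1L
  rw [show k + w - 1 + 1 = k + w by omega] at hT
  set H := hol M p k n with hH
  have hH0 : 0 ≤ H := hol_nonneg M p k n
  have hH1 : hol M p (k + w - 1) (2 * L) ≤ H :=
    (hol_anti M p (2 * L) (by omega)).trans (hol_mono M p k (by omega) (by omega))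
  have hH2 : hol M p k (2 * L + w) ≤ H := hol_mono M p k (by omega) (by omega)
  set u : ℝ := (L : ℝ) ^ (-(1 / 48 : ℝ)) with hu
  have hu0 : 0 ≤ u := by positivity
  have hu1 : u ≤ 1 / (24 * 10 ^ 14) := by
    have g1 : (24 * 10 ^ 14 : ℝ) ≤ (L : ℝ) ^ (1 / 48 : ℝ) := by
      have g2 : ((24 * 10 ^ 14 : ℝ)) ^ 48 ≤ (L : ℝ) := by
        have : (0 : ℝ) ≤ (2 * C0) ^ 2 := by positivity
        linarith
      calc (24 * 10 ^ 14 : ℝ) = (((24 * 10 ^ 14 : ℝ)) ^ 48) ^ (1 / 48 : ℝ) := by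
            have g3 : (1 / 48 : ℝ) = ((48 : ℕ) : ℝ)⁻¹ := by norm_num
            rw [g3, Real.pow_rpow_inv_natCast (by positivity) (by norm_num)]
        _ ≤ (L : ℝ) ^ (1 / 48 : ℝ) :=
            Real.rpow_le_rpow (by positivity) g2 (by norm_num)
    rw [hu, Real.rpow_neg (by positivity), ← one_div]
    exact one_div_le_one_div_of_le (by norm_num) g1
  have hT' : (mu M p).real (Ta M 0 (k + w) (2 * L)) ≤ u * ((L : ℝ)⁻¹ + H) := by
    refine hT.trans ?_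
    exact mul_le_mul_of_nonneg_left (by linarith) hu0
  -- sizes
  have hnL : (n : ℝ) ≤ 4 * L := by
    have : n ≤ 4 * L := by omega
    exact_mod_cast this
  have hw0 : (0 : ℝ) < w := by exact_mod_cast hwpos
  have hw1 : (1 : ℝ) ≤ w := by exact_mod_cast hwpos
  have hJw : (J : ℝ) * w ≤ 2 * n := by
    have : ((J * w : ℕ) : ℝ) ≤ ((2 * n : ℕ) : ℝ) := by exact_mod_cast hNn
    push_cast at this
    exact this
  have hJ0 : (0 : ℝ) ≤ J := Nat.cast_nonneg J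
  have hJ1 : (1 : ℝ) ≤ J := by
    have : 1 ≤ J := Nat.le_add_left 1 _
    exact_mod_cast this
  have hn0 : (0 : ℝ) < n := by
    have : 0 < n := by omega
    exact_mod_cast this
  have hJ8 : (J : ℝ) * (L : ℝ)⁻¹ ≤ 8 := by
    rw [← div_eq_mul_inv, div_le_iff₀ (by linarith)]
    nlinarith
  have hmain : 1 / (2 * 10 ^ 14 : ℝ) ≤ 3 * J * H + 8 * u := by
    refine hfail.trans (hch.trans ?_)
    have s1 : ((J : ℝ) + 1) * hol M p k (2 * L + w) ≤ (2 * J) * H :=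
      mul_le_mul (by linarith) hH2 (hol_nonneg M p k _) (by linarith)
    have s2 : (J : ℝ) * (mu M p).real (Ta M 0 (k + w) (2 * L)) ≤ 8 * u + J * H := by
      calc (J : ℝ) * (mu M p).real (Ta M 0 (k + w) (2 * L)) ≤ J * (u * ((L : ℝ)⁻¹ + H)) :=
            mul_le_mul_of_nonneg_left hT' (by linarith)
        _ = u * (J * (L : ℝ)⁻¹) + u * (J * H) := by ring
        _ ≤ u * 8 + 1 * (J * H) := by
            refine add_le_add (mul_le_mul_of_nonneg_left hJ8 hu0) ?_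
            refine mul_le_mul_of_nonneg_right (hu1.trans (by norm_num)) (by positivity)
        _ = _ := by ring
    linarith
  have hfin : 1 / (24 * 10 ^ 14 : ℝ) ≤ J * H := by
    have e1 : (1 : ℝ) / (2 * 10 ^ 14) = 12 * (1 / (24 * 10 ^ 14)) := by norm_num
    rw [e1] at hmain
    set x : ℝ := 1 / (24 * 10 ^ 14) with hx
    have hx0 : 0 ≤ x := by rw [hx]; norm_num
    set y : ℝ := J * H with hy
    have e3 : 3 * (J : ℝ) * H = 3 * y := by rw [hy]; ring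
    rw [e3] at hmain
    linarith
  have hfin2 : 1 / (48 * 10 ^ 14 : ℝ) * w ≤ n * H := by
    have e3 : (J * H) * w ≤ 2 * (n * H) := by nlinarith
    have e4 : 1 / (24 * 10 ^ 14 : ℝ) * w ≤ (J * H) * w := mul_le_mul_of_nonneg_right hfin hw0.le
    have e2 : (1 : ℝ) / (24 * 10 ^ 14) * w = 2 * (1 / (48 * 10 ^ 14) * w) := by ring
    rw [e2] at e4
    linarith
  rw [div_le_iff₀ hn0]
  linarith

end

end Pool.Agent.Y990.OA
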