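import Pool.Agent.Y990.OA.Hol2
import Pool.Agent.Y941.OA.Exp
import Pool.Agent.Y279.OA.Conc
import Pool.Agent.Y338.OA.Ibp2
import Pool.Agent.Y67.OA.Lw
import Pool.Agent.Y547.OA.Iso
import Pool.Agent.Y784.OA.Terr
import Pool.Agent.Y606.OA.Thin
import Pool.Agent.Y70.OA.Ctc2
import Pool.Agent.Y454.OA.Cv
import Pool.Agent.Y258.OA.Al12
import Pool.Agent.Y350.OA.AlXi
import Pool.Agent.Y968.OA.Lev
import Pool.Agent.W400.PC.PT

set_option autoImplicit false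

open MeasureTheory Set

/-!
Project OA: assembly.  Holes of polynomial size and crossing clusters at the critical point.
-/

namespace Pool.Agent.Y990.OA

open Pool.Agent.W783.PC (pm DepOn Inc)
open Pool.Agent.Y990.CB

noncomputable section

variable {d : ℕ}

theorem s_lev : S_lev :=
  Pool.Agent.Y968.OA.lev (Pool.Agent.Y338.OA.ibp2 (Pool.Agent.Y279.OA.conc Pool.Agent.Y941.OA.exp))
    (Pool.Agent.Y784.OA.terr (Pool.Agent.Y547.OA.iso Pool.Agent.Y67.OA.lw))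
    Pool.Agent.Y258.OA.al1 Pool.Agent.Y258.OA.al2 Pool.Agent.Y350.OA.al3 Pool.Agent.Y350.OA.al4

theorem s_cv : S_cv := Pool.Agent.Y454.OA.cv Pool.Agent.Y70.OA.ctc2

/-- Monotonicity in the parameter. -/
theorem hol_par (M : Mod d) {p q : unitInterval} (h : p ≤ q) (k n : ℕ) :
    hol M q k n ≤ hol M p k n := by
  have e : ∀ r : unitInterval, hol M r k n = 1 - (mu M r).real (Lk M (Bo 0 n) (Bo 0 k) (Fr 0 n)) := by
    intro r
    unfold hol
    have e1 : {ω | ω ∉ Lk M (Bo 0 n) (Bo 0 k) (Fr 0 n)} = (Lk M (Bo 0 n) (Bo 0 k) (Fr 0 n))ᶜ := rfl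
    rw [e1, probReal_compl_eq_one_sub (Lk_meas M _ _ _)]
  rw [e, e]
  have h1 : mu M p (Lk M (Bo 0 n) (Bo 0 k) (Fr 0 n)) ≤ mu M q (Lk M (Bo 0 n) (Bo 0 k) (Fr 0 n)) :=
    Pool.Agent.W400.PC.s_mono M.ι (fun _ => p) (fun _ => q) _ (fun _ => h) (Lk_inc M _ _ _)
      (Lk_meas M _ _ _)
  have h2 : (mu M p).real (Lk M (Bo 0 n) (Bo 0 k) (Fr 0 n)) ≤
      (mu M q).real (Lk M (Bo 0 n) (Bo 0 k) (Fr 0 n)) :=
    ENNReal.toReal_mono (measure_ne_top _ _) h1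
  linarith

/-- Crossings of larger annuli. -/
theorem Ta_mono (M : Mod d) (p : unitInterval) {k k' n n' : ℕ} (hk : k ≤ k') (hk' : k' ≤ n)
    (hn : n ≤ n') : (mu M p).real (Ta M 0 k n') ≤ (mu M p).real (Ta M 0 k' n) := by
  refine measureReal_mono ?_ (measure_ne_top _ _)
  rintro ω ⟨x, hx, y, hy, ⟨x', hx', hxx⟩, ⟨y', hy', hyy⟩, hxy⟩
  have key : ∀ z : Z d, z ∈ Fr (0 : Z d) n' → z ∉ Bo (0 : Z d) n ∨ z ∈ Fr (0 : Z d) n := by
    intro z hz
    by_cases hb : z ∈ Bo (0 : Z d) n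
    · right
      refine ⟨hb, ?_⟩
      obtain ⟨i, hi⟩ := hz.2
      refine ⟨i, le_antisymm (hb i) ?_⟩
      rw [hi]
      exact_mod_cast hn
    · exact Or.inl hb
  refine ⟨x, Bo_mono 0 hk hx, y, Bo_mono 0 hk hy, ?_, ?_, ?_⟩
  · exact exit_Am (Bo_mono 0 (hk.trans hk') hx) (key x' hx') hxx
  · exact exit_Am (Bo_mono 0 (hk.trans hk') hy) (key y' hy') hyy
  · intro hr
    exact hxy (reach_mono (Bo_mono 0 hn) hr)

/-- **Main theorem of the project OA.** -/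
theorem main_of (h2 : S_chain2) (h3 : S_two3) (hd : 3 ≤ d) (M : Mod d) (hM : Nd M) (hQ : Qm M) :
    ∃ (A : ℕ) (c C : ℝ), 0 < c ∧ ∀ k n : ℕ, (k + 2) ^ A ≤ n →
      (∀ p : unitInterval, p ≤ pc M → c * ((k : ℝ) + 1) / n ≤ hol M p k n) ∧
      (mu M (pc M)).real (Ta M 0 k n) ≤ C * (n : ℝ) ^ (-(1 / 48 : ℝ)) * hol M (pc M) k n := by
  obtain ⟨A1, c, hc, h1⟩ := hol2_of h3 h2 d M hd hM hQ
  obtain ⟨A2, h4⟩ := h3 d M hd hM hQ
  refine ⟨A1 + 2 * A2 + 4, c, 3 * (4 / c + 1), hc, fun k n hn => ?_⟩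
  have hk2 : 2 ≤ k + 2 := by omega
  have hn1 : (k + 2) ^ A1 ≤ n :=
    le_trans (Nat.pow_le_pow_right (by omega) (by omega)) hn
  have hhol : ∀ p : unitInterval, p ≤ pc M → c * ((k : ℝ) + 1) / n ≤ hol M p k n :=
    fun p hp => (h1 k n hn1).trans (hol_par M hp k n)
  refine ⟨hhol, ?_⟩
  set L := n / 2 with hL
  have hbig : (k + 2) ^ A2 * (k + 2) ≤ L := by
    have e1 : (k + 2) ^ (A1 + 2 * A2 + 4) =
        ((k + 2) ^ A2 * (k + 2)) * (k + 2) * ((k + 2) ^ (A1 + A2) * ((k + 2) * (k + 2))) := by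
      rw [show A1 + 2 * A2 + 4 = A2 + 1 + 1 + ((A1 + A2) + (1 + 1)) by ring, pow_add, pow_add,
        pow_add, pow_add, pow_add]
      ring
    have e2 : 1 ≤ (k + 2) ^ (A1 + A2) * ((k + 2) * (k + 2)) := by
      have : 0 < (k + 2) ^ (A1 + A2) * ((k + 2) * (k + 2)) := by positivity
      omega
    have e3 : ((k + 2) ^ A2 * (k + 2)) * 2 ≤ n := by
      refine le_trans ?_ hn
      rw [e1]
      calc ((k + 2) ^ A2 * (k + 2)) * 2 ≤ ((k + 2) ^ A2 * (k + 2)) * (k + 2) :=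
            Nat.mul_le_mul_left _ hk2
        _ = ((k + 2) ^ A2 * (k + 2)) * (k + 2) * 1 := by ring
        _ ≤ _ := Nat.mul_le_mul_left _ e2
    omega
  have hA2L : (k + 2) ^ A2 ≤ L := le_trans (Nat.le_mul_of_pos_right _ (by omega)) hbig
  have hkL : k + 2 ≤ L := le_trans (Nat.le_mul_of_pos_left _ (by positivity)) hbig
  have hT := h4 k L hA2L
  set p := pc M with hp
  set H := hol M p k n with hH
  have hH1 : hol M p k (2 * L) ≤ H := hol_mono M p k (by omega) (by omega)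
  have hT1 : (mu M p).real (Ta M 0 k n) ≤ (mu M p).real (Ta M 0 (k + 1) (2 * L)) :=
    Ta_mono M p (by omega) (by omega) (by omega)
  have hLR : (0 : ℝ) < L := by
    have : 0 < L := by omega
    exact_mod_cast this
  have hnR : (0 : ℝ) < n := by
    have : 0 < n := by omega
    exact_mod_cast this
  have hnL : (n : ℝ) ≤ 3 * L := by
    have : n ≤ 3 * L := by omega
    exact_mod_cast this
  have hH2 := h1 k n hn1
  have hk0 : (0 : ℝ) ≤ k := Nat.cast_nonneg k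
  have hH3 : c / n ≤ H := by
    refine le_trans ?_ hH2
    refine div_le_div_of_nonneg_right ?_ hnR.le
    nlinarith
  have hLi : (L : ℝ)⁻¹ ≤ 4 / c * H := by
    have e1 : (L : ℝ)⁻¹ ≤ 3 / n := by
      rw [inv_eq_one_div, div_le_div_iff₀ hLR hnR]
      linarith
    have e2 : 3 / (n : ℝ) = 3 / c * (c / n) := by
      field_simp
    have e3 : 3 / c * (c / n) ≤ 4 / c * H := by
      refine mul_le_mul ?_ hH3 (by positivity) (by positivity)
      exact div_le_div_of_nonneg_right (by norm_num) hc.le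
    linarith
  have hH0 : 0 ≤ H := hol_nonneg M p k n
  have hpow : (L : ℝ) ^ (-(1 / 48 : ℝ)) ≤ 3 * (n : ℝ) ^ (-(1 / 48 : ℝ)) := by
    rw [Real.rpow_neg hLR.le, Real.rpow_neg hnR.le, ← div_eq_mul_inv, inv_eq_one_div,
      div_le_div_iff₀ (Real.rpow_pos_of_pos hLR _) (Real.rpow_pos_of_pos hnR _), one_mul]
    calc (n : ℝ) ^ (1 / 48 : ℝ) ≤ (3 * (L : ℝ)) ^ (1 / 48 : ℝ) :=
          Real.rpow_le_rpow hnR.le hnL (by norm_num)
      _ = 3 ^ (1 / 48 : ℝ) * (L : ℝ) ^ (1 / 48 : ℝ) := Real.mul_rpow (by norm_num) hLR.le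
      _ ≤ 3 * (L : ℝ) ^ (1 / 48 : ℝ) := by
          refine mul_le_mul_of_nonneg_right ?_ (Real.rpow_nonneg hLR.le _)
          calc (3 : ℝ) ^ (1 / 48 : ℝ) ≤ 3 ^ (1 : ℝ) :=
                Real.rpow_le_rpow_of_exponent_le (by norm_num) (by norm_num)
            _ = 3 := Real.rpow_one 3
  calc (mu M p).real (Ta M 0 k n) ≤ (L : ℝ) ^ (-(1 / 48 : ℝ)) * ((L : ℝ)⁻¹ + hol M p k (2 * L)) :=
        hT1.trans hT
    _ ≤ (3 * (n : ℝ) ^ (-(1 / 48 : ℝ))) * (4 / c * H + H) := by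
        refine mul_le_mul hpow (by linarith) ?_ (by positivity)
        have := hol_nonneg M p k (2 * L)
        positivity
    _ = 3 * (4 / c + 1) * (n : ℝ) ^ (-(1 / 48 : ℝ)) * H := by ring

end

end Pool.Agent.Y990.OA
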