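import Pool.Agent.Y990.OA.Main
import Pool.Agent.Y990.OA.Chain2
import Pool.Agent.Y319.OA.Two3

set_option autoImplicit false

open MeasureTheory Set

/-!
Project OA: the main theorem.
-/

namespace Pool.Agent.Y990.OA

open Pool.Agent.Y990.CB

noncomputable section

variable {d : ℕ}

theorem s_two3 : S_two3 :=
  Pool.Agent.Y319.OA.two3 s_lev s_cv Pool.Agent.Y606.OA.thin Pool.Agent.Y258.OA.al1
    Pool.Agent.Y350.OA.mon Pool.Agent.Y350.OA.xi

/-- **Main theorem of the project OA.** -/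
theorem main (hd : 3 ≤ d) (M : Mod d) (hM : Nd M) (hQ : Qm M) :
    ∃ (A : ℕ) (c C : ℝ), 0 < c ∧ ∀ k n : ℕ, (k + 2) ^ A ≤ n →
      (∀ p : unitInterval, p ≤ pc M → c * ((k : ℝ) + 1) / n ≤ hol M p k n) ∧
      (mu M (pc M)).real (Ta M 0 k n) ≤ C * (n : ℝ) ^ (-(1 / 48 : ℝ)) * hol M (pc M) k n :=
  main_of chain2 s_two3 hd M hM hQ

end

end Pool.Agent.Y990.OA
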