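import Pool.Agent.Y454.OA.Cv
import Pool.Agent.Y319.OA.Two3
import Pool.Agent.W400.PC.PT

set_option autoImplicit false

open MeasureTheory Set

/-!
Project OA: the bound for two crossing clusters, uniformly in all parameters `p ≥ p_c`.  The proofs
are those of helper454 (`Pool.Agent.Y454.OA.cv`) and helper319 (`Pool.Agent.Y319.OA.two3`) with a
general parameter.
-/

namespace Pool.Agent.Y990.OA

open Pool.Agent.W783.PC (pm DepOn Inc)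
open Pool.Agent.W424.PC (cfgOf)
open Pool.Agent.Y990.CB
open Pool.Agent.Y290.CB
open Pool.Agent.Y454.OA
open H974 (Ex Ok ind Pr)

noncomputable section

variable {d : ℕ}

/-- CVP: the number of places with two clusters is bounded by the influence, for `p ≥ p_c`. -/
def S_cvp : Prop := ∀ (d : ℕ) (M : Mod d), 1 ≤ d → Nd M → Qm M → ∃ C : ℝ, 1 ≤ C ∧
  ∀ p : unitInterval, pc M ≤ p → ∀ k L r m : ℕ, 1 ≤ k → r + 4 * k + 1 ≤ m → m < L →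
  ∑ z ∈ Bf (0 : Z d) r, (mu M p).real (Kv M L z k) ≤
    C * ((k : ℝ) + 1) ^ (2 * d ^ 2 + 3 * d) * Xi M p L m

/-- TWO3P: two distinct crossing clusters, for `p ≥ p_c`. -/
def S_two3p : Prop := ∀ (d : ℕ) (M : Mod d), 3 ≤ d → Nd M → Qm M → ∃ A : ℕ,
  ∀ p : unitInterval, pc M ≤ p →
  ∀ k L : ℕ, (k + 2) ^ A ≤ L → (mu M p).real (Ta M 0 (k + 1) (2 * L)) ≤
    (L : ℝ) ^ (-(1 / 48 : ℝ)) * ((L : ℝ)⁻¹ + hol M p k (2 * L))

theorem cvp (h : S_ctc2) : S_cvp := by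
  classical
  intro d M hd hM hQ
  obtain ⟨hpc, c, hc, hlow0⟩ := s_tau d M hd hM
  have hpc0 : (0 : ℝ) < pc M := by exact_mod_cast hpc
  set K0 : ℝ := 32 ^ d * ((((pc M : unitInterval) : ℝ) ^ 5)⁻¹ * (7 : ℝ) ^ (4 * d)) / c with hKK
  have hKK0 : 0 ≤ K0 := by positivity
  refine ⟨K0 + 1, by linarith, ?_⟩
  intro p hpp k L r m hk hrm hmL
  have hpp' : (pc M : ℝ) ≤ p := hpp
  have hp0 : (0 : ℝ) < p := by linarith
  have hp1 : (p : ℝ) ≤ 1 := p.2.2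
  have hlow : ∀ (n : ℕ) (z x y : Z d), 1 ≤ n → x ∈ Bo z n → y ∈ Bo z n →
      c / (n : ℝ) ^ (2 * d ^ 2) ≤ (mu M p).real (Cn M (Bo z (4 * n)) x y) := by
    intro n z x y hn hx hy
    refine (hlow0 n z x y hn hx hy).trans ?_
    exact ENNReal.toReal_mono (measure_ne_top _ _)
      (Pool.Agent.W400.PC.s_mono M.ι (fun _ => pc M) (fun _ => p) _ (fun _ => hpp)
        (Cn_inc M _ _ _) (Cn_meas M _ _ _))
  set K : ℝ := 32 ^ d * (((p : ℝ) ^ 5)⁻¹ * (7 : ℝ) ^ (4 * d)) / c with hK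
  have hK0 : 0 ≤ K := by positivity
  have hKle : K ≤ K0 := by
    rw [hK, hKK]
    refine div_le_div_of_nonneg_right ?_ hc.le
    refine mul_le_mul_of_nonneg_left ?_ (by positivity)
    refine mul_le_mul_of_nonneg_right ?_ (by positivity)
    exact inv_anti₀ (by positivity) (pow_le_pow_left₀ hpc0.le hpp' 5)
  set δ : (Z d × Z d) × (Z d × Z d) → ℝ := dr M p L with hδ
  have hd0 : ∀ q, 0 ≤ δ q := fun q => dr_nonneg M p L q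
  have hs := dr_sum M p L m hmL.le
  have hk0 : (0 : ℝ) < k := by exact_mod_cast hk
  set τ : ℝ := c / (k : ℝ) ^ (2 * d ^ 2) with hτdef
  have hτ : 0 < τ := by positivity
  have h1 : ∀ z ∈ Bf (0 : Z d) r, ∀ x ∈ Bf z k, ∀ y ∈ Bf z k,
      τ * (mu M p).real (Ea M L x y) ≤
        ∑ q ∈ Tq M m, if q.1.1 ∈ Bo z (4 * k) then δ q else 0 := by
    intro z hz x hx y hy
    have hD : Bo z (4 * k + 1) ⊆ Bo (0 : Z d) m := Bo_sub (mem_Bf.1 hz) (by omega)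
    have hxr : x ∈ Bo (0 : Z d) (k + r) := Bo_sub (mem_Bf.1 hz) le_rfl (mem_Bf.1 hx)
    have hxF : x ∉ Fr (0 : Z d) L := by
      rintro ⟨-, i, hi⟩
      have := hxr i
      rw [hi] at this
      have h' : L ≤ k + r := by exact_mod_cast this
      omega
    exact one_pair2 h M p hM hQ L m (4 * k) hmL.le (Bo z (4 * k)) z rfl hD x y
      (Bo_mono z (by omega) (mem_Bf.1 hx)) (Bo_mono z (by omega) (mem_Bf.1 hy)) hxF τ
      (hlow k z x y hk (mem_Bf.1 hx) (mem_Bf.1 hy))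
  have h2 : τ * ∑ u ∈ Bf (0 : Z d) r, ∑ x ∈ Bf u k, ∑ y ∈ Bf u k,
      (mu M p).real (Ea M L x y) ≤
      ∑ u ∈ Bf (0 : Z d) r, ∑ x ∈ Bf u k, ∑ y ∈ Bf u k,
        ∑ q ∈ Tq M m, if q.1.1 ∈ Bo u (4 * k) then δ q else 0 := by
    rw [Finset.mul_sum]
    refine Finset.sum_le_sum fun u hu => ?_
    rw [Finset.mul_sum]
    refine Finset.sum_le_sum fun x hx => ?_
    rw [Finset.mul_sum]
    exact Finset.sum_le_sum fun y hy => h1 u hu x hx y hy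
  have h3 : ∑ u ∈ Bf (0 : Z d) r, ∑ x ∈ Bf u k, ∑ y ∈ Bf u k,
        ∑ q ∈ Tq M m, (if q.1.1 ∈ Bo u (4 * k) then δ q else 0) ≤
      (2 * (4 * k) + 1 : ℕ) ^ d * ((2 * k + 1 : ℕ) ^ d * (2 * k + 1 : ℕ) ^ d) *
        ∑ q ∈ Tq M m, δ q := by
    have e1 : ∀ u ∈ Bf (0 : Z d) r, ∑ x ∈ Bf u k, ∑ y ∈ Bf u k,
        ∑ q ∈ Tq M m, (if q.1.1 ∈ Bo u (4 * k) then δ q else 0) =
        ((2 * k + 1 : ℕ) ^ d * (2 * k + 1 : ℕ) ^ d : ℝ) *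
          ∑ q ∈ Tq M m, (if q.1.1 ∈ Bo u (4 * k) then δ q else 0) := by
      intro u _
      rw [Finset.sum_const, Finset.sum_const, card_Bf, nsmul_eq_mul, nsmul_eq_mul]
      push_cast
      ring
    rw [Finset.sum_congr rfl e1, ← Finset.mul_sum, Finset.sum_comm]
    have e2 : ∑ q ∈ Tq M m, ∑ u ∈ Bf (0 : Z d) r, (if q.1.1 ∈ Bo u (4 * k) then δ q else 0) ≤
        ∑ q ∈ Tq M m, ((2 * (4 * k) + 1 : ℕ) : ℝ) ^ d * δ q := by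
      refine Finset.sum_le_sum fun q _ => ?_
      rw [sum_ite_const]
      refine mul_le_mul_of_nonneg_right ?_ (hd0 q)
      have hsub : (Bf (0 : Z d) r).filter (fun u => q.1.1 ∈ Bo u (4 * k)) ⊆
          Bf q.1.1 (4 * k) := by
        intro u hu
        rw [Finset.mem_filter] at hu
        exact mem_Bf.2 (mem_Bo_comm.1 hu.2)
      have := Finset.card_le_card hsub
      rw [card_Bf] at this
      exact_mod_cast this
    rw [← Finset.mul_sum] at e2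
    calc _ ≤ ((2 * k + 1 : ℕ) ^ d * (2 * k + 1 : ℕ) ^ d : ℝ) *
          (((2 * (4 * k) + 1 : ℕ) : ℝ) ^ d * ∑ q ∈ Tq M m, δ q) :=
          mul_le_mul_of_nonneg_left e2 (by positivity)
      _ = _ := by push_cast; ring
  have hδ0 : 0 ≤ ∑ q ∈ Tq M m, δ q := Finset.sum_nonneg fun q _ => hd0 q
  have h4 : ∑ q ∈ Tq M m, δ q ≤ ((p : ℝ) ^ 5)⁻¹ * ((7 : ℝ) ^ (4 * d) * Xi M p L m) := by
    rw [← div_eq_inv_mul, le_div_iff₀ (by positivity), mul_comm]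
    exact hs
  have hXi0 : 0 ≤ Xi M p L m := by
    have h5 : 0 ≤ ((p : ℝ) ^ 5)⁻¹ * ((7 : ℝ) ^ (4 * d) * Xi M p L m) := hδ0.trans h4
    have h6 : 0 < ((p : ℝ) ^ 5)⁻¹ * (7 : ℝ) ^ (4 * d) := by positivity
    rw [← mul_assoc] at h5
    exact nonneg_of_mul_nonneg_right h5 h6
  have h5 : (((2 * (4 * k) + 1 : ℕ) : ℝ) ^ d * (((2 * k + 1 : ℕ) : ℝ) ^ d *
      ((2 * k + 1 : ℕ) : ℝ) ^ d)) ≤ 32 ^ d * ((k : ℝ) + 1) ^ (3 * d) := by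
    have k1 : (((2 * (4 * k) + 1 : ℕ) : ℝ) * (((2 * k + 1 : ℕ) : ℝ) *
        ((2 * k + 1 : ℕ) : ℝ))) ≤ 32 * ((k : ℝ) + 1) ^ 3 := by
      push_cast
      nlinarith [mul_nonneg hk0.le hk0.le, mul_nonneg hk0.le (mul_nonneg hk0.le hk0.le)]
    calc _ = ((((2 * (4 * k) + 1 : ℕ) : ℝ) * (((2 * k + 1 : ℕ) : ℝ) *
        ((2 * k + 1 : ℕ) : ℝ)))) ^ d := by rw [mul_pow, mul_pow]
      _ ≤ (32 * ((k : ℝ) + 1) ^ 3) ^ d := pow_le_pow_left₀ (by positivity) k1 d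
      _ = _ := by rw [mul_pow, ← pow_mul]
  have h6 : τ * ∑ u ∈ Bf (0 : Z d) r, ∑ x ∈ Bf u k, ∑ y ∈ Bf u k,
      (mu M p).real (Ea M L x y) ≤ (32 ^ d * ((k : ℝ) + 1) ^ (3 * d)) *
        (((p : ℝ) ^ 5)⁻¹ * ((7 : ℝ) ^ (4 * d) * Xi M p L m)) :=
    (h2.trans h3).trans (mul_le_mul h5 h4 hδ0 (by positivity))
  have h7 : ∑ z ∈ Bf (0 : Z d) r, (mu M p).real (Kv M L z k) ≤
      ∑ u ∈ Bf (0 : Z d) r, ∑ x ∈ Bf u k, ∑ y ∈ Bf u k, (mu M p).real (Ea M L x y) := by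
    refine Finset.sum_le_sum fun z _ => ?_
    refine (measureReal_mono (Kv_sub M L z k) (measure_ne_top _ _)).trans ?_
    refine (measureReal_biUnion_finset_le _ _).trans (Finset.sum_le_sum fun a _ => ?_)
    exact measureReal_biUnion_finset_le _ _
  refine h7.trans ?_
  have h8 : ∑ u ∈ Bf (0 : Z d) r, ∑ x ∈ Bf u k, ∑ y ∈ Bf u k,
      (mu M p).real (Ea M L x y) ≤ (32 ^ d * ((k : ℝ) + 1) ^ (3 * d)) *
        (((p : ℝ) ^ 5)⁻¹ * ((7 : ℝ) ^ (4 * d) * Xi M p L m)) / τ := by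
    rw [le_div_iff₀ hτ, mul_comm]
    exact h6
  refine h8.trans ?_
  have h9 : (32 ^ d * ((k : ℝ) + 1) ^ (3 * d)) *
        (((p : ℝ) ^ 5)⁻¹ * ((7 : ℝ) ^ (4 * d) * Xi M p L m)) / τ =
      K * ((k : ℝ) ^ (2 * d ^ 2) * ((k : ℝ) + 1) ^ (3 * d)) * Xi M p L m := by
    rw [hK, hτdef]
    field_simp
  rw [h9]
  refine mul_le_mul_of_nonneg_right ?_ hXi0
  have h10 : (k : ℝ) ^ (2 * d ^ 2) ≤ ((k : ℝ) + 1) ^ (2 * d ^ 2) :=
    pow_le_pow_left₀ hk0.le (by linarith) _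
  rw [pow_add]
  have h11 : (0 : ℝ) ≤ ((k : ℝ) + 1) ^ (3 * d) := by positivity
  have h12 : (0 : ℝ) ≤ ((k : ℝ) + 1) ^ (2 * d ^ 2) := by positivity
  calc K * ((k : ℝ) ^ (2 * d ^ 2) * ((k : ℝ) + 1) ^ (3 * d))
      ≤ K * (((k : ℝ) + 1) ^ (2 * d ^ 2) * ((k : ℝ) + 1) ^ (3 * d)) :=
        mul_le_mul_of_nonneg_left (mul_le_mul_of_nonneg_right h10 h11) hK0
    _ ≤ _ := mul_le_mul_of_nonneg_right (by linarith) (mul_nonneg h12 h11)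



/-- Two distinct crossing clusters. -/
theorem two3p (h1 : S_lev) (h2 : S_cvp) (h3 : S_thin) (h4 : S_al1) (h5 : S_mon) (h6 : S_xi) :
    S_two3p := by
  intro d M hd hNd hQm
  obtain ⟨C1, hC1, hcv0⟩ := h2 d M (by omega) hNd hQm
  obtain ⟨C2, hC2, hlev⟩ := h1 d (by omega)
  have hC10 : 0 < C1 := by linarith
  have hC20 : 0 < C2 := by linarith
  have hB0 : 0 ≤ Pool.Agent.Y319.OA.B0 d C2 := by unfold Pool.Agent.Y319.OA.B0; positivity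
  have hc1 : 0 ≤ 2 * (C1 * C2 * 2 ^ d) := by positivity
  have hc2 : 0 ≤ C1 * 4 ^ d * Pool.Agent.Y319.OA.B0 d C2 := by positivity
  obtain ⟨j, hj⟩ := pow_unbounded_of_one_lt (2 * (C1 * C2 * 2 ^ d) + C1 * 4 ^ d * Pool.Agent.Y319.OA.B0 d C2 + 64)
    (one_lt_two : (1 : ℝ) < 2)
  obtain ⟨e, he⟩ : ∃ e : ℕ, e = 2 * d ^ 2 + 3 * d := ⟨_, rfl⟩
  refine ⟨48 * (e + d + 1 + j), fun p hpp k L hkL => ?_⟩
  have hcv := hcv0 p hpp
  rw [← he] at hcv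
  have hk0 : (0 : ℝ) ≤ k := Nat.cast_nonneg k
  have hQ2 : (2 : ℝ) ≤ (k : ℝ) + 2 := by linarith
  have hQ1 : (1 : ℝ) ≤ (k : ℝ) + 2 := by linarith
  have hL0' : (0 : ℝ) ≤ L := Nat.cast_nonneg L
  obtain ⟨s, hs⟩ : ∃ s : ℝ, s = (L : ℝ) ^ (1 / 48 : ℝ) := ⟨_, rfl⟩
  have hsn : 0 ≤ s := by rw [hs]; exact Real.rpow_nonneg hL0' _
  have hsL : s ^ 48 = L := by
    rw [hs, ← Real.rpow_natCast, ← Real.rpow_mul hL0']
    norm_num
  have hsQ : ((k : ℝ) + 2) ^ (e + d + 1 + j) ≤ s := by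
    have h7 : (((k : ℝ) + 2) ^ (e + d + 1 + j)) ^ 48 ≤ s ^ 48 := by
      rw [hsL, ← pow_mul, mul_comm]
      have h8 : (((k + 2) ^ (48 * (e + d + 1 + j)) : ℕ) : ℝ) ≤ L := by exact_mod_cast hkL
      push_cast at h8
      exact h8
    exact (pow_le_pow_iff_left₀ (pow_nonneg (zero_le_one.trans hQ1) _) hsn
      (by norm_num)).1 h7
  have hQN1 : 1 ≤ ((k : ℝ) + 2) ^ (e + d + 1) := one_le_pow₀ hQ1
  have hQN : (k : ℝ) + 2 ≤ ((k : ℝ) + 2) ^ (e + d + 1) := le_self_pow₀ hQ1 (by omega)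
  have hsC : (2 * (C1 * C2 * 2 ^ d) + C1 * 4 ^ d * Pool.Agent.Y319.OA.B0 d C2 + 64) *
      ((k : ℝ) + 2) ^ (e + d + 1) ≤ s := by
    calc (2 * (C1 * C2 * 2 ^ d) + C1 * 4 ^ d * Pool.Agent.Y319.OA.B0 d C2 + 64) * ((k : ℝ) + 2) ^ (e + d + 1) ≤
        ((k : ℝ) + 2) ^ j * ((k : ℝ) + 2) ^ (e + d + 1) :=
          mul_le_mul_of_nonneg_right (hj.le.trans (pow_le_pow_left₀ zero_le_two hQ2 j))
            (zero_le_one.trans hQN1)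
      _ = ((k : ℝ) + 2) ^ (e + d + 1 + j) := by rw [← pow_add, add_comm j (e + d + 1)]
      _ ≤ s := hsQ
  obtain ⟨N, hN⟩ : ∃ N : ℝ, N = ((k : ℝ) + 2) ^ (e + d + 1) := ⟨_, rfl⟩
  obtain ⟨c1, hcc1⟩ : ∃ c1 : ℝ, c1 = 2 * (C1 * C2 * 2 ^ d) := ⟨_, rfl⟩
  obtain ⟨c2, hcc2⟩ : ∃ c2 : ℝ, c2 = C1 * 4 ^ d * Pool.Agent.Y319.OA.B0 d C2 := ⟨_, rfl⟩
  rw [← hcc1, ← hcc2, ← hN] at hsC
  rw [← hN] at hQN1 hQN
  rw [← hcc1] at hc1
  rw [← hcc2] at hc2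
  have hN0 : 0 ≤ N := zero_le_one.trans hQN1
  have g1 : 0 ≤ c1 * N := mul_nonneg hc1 hN0
  have g2 : 0 ≤ c2 * N := mul_nonneg hc2 hN0
  have hexp : (c1 + c2 + 64) * N = c1 * N + c2 * N + 64 * N := by ring
  rw [hexp] at hsC
  have hA : 2 * (C1 * C2 * 2 ^ d) * ((k : ℝ) + 2) ^ (e + d + 1) ≤ s := by
    rw [← hcc1, ← hN]; linarith
  have hB : C1 * 4 ^ d * Pool.Agent.Y319.OA.B0 d C2 * ((k : ℝ) + 2) ^ (e + d + 1) ≤ s := by
    rw [← hcc2, ← hN]; linarith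
  have hs64 : 64 * ((k : ℝ) + 2) ≤ s := by linarith
  have hs1 : 1 ≤ s := by linarith
  have hLs : s ≤ L := by rw [← hsL]; exact le_self_pow₀ hs1 (by norm_num)
  have hLk : 64 * (k + 2) ≤ L := by
    have h7 : ((64 * (k + 2) : ℕ) : ℝ) ≤ L := by
      push_cast
      linarith
    exact_mod_cast h7
  have hfin := Pool.Agent.Y319.OA.two3_box h3 h4 h5 h6 hd M p C1 C2 hC1 hC2 e hcv hlev k L s hsL hs1 hA hB hLk
  rw [Real.rpow_neg hL0', ← hs]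
  exact hfin


end

end Pool.Agent.Y990.OA
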