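import Pool.Agent.Y990.OA.Main2
import Pool.Agent.Y990.OA.Sup

set_option autoImplicit false

open MeasureTheory Set

/-!
Project OA: the main theorem with the two-arm bound for all `p ≥ p_c`.
-/

namespace Pool.Agent.Y990.OA

open Pool.Agent.Y990.CB

noncomputable section

variable {d : ℕ}

theorem s_two3p : S_two3p :=
  two3p s_lev (cvp Pool.Agent.Y70.OA.ctc2) Pool.Agent.Y606.OA.thin Pool.Agent.Y258.OA.al1
    Pool.Agent.Y350.OA.mon Pool.Agent.Y350.OA.xi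

/-- **Main theorem of the project OA**, with the two-arm bound for all `p ≥ p_c`. -/
theorem main3 (hd : 3 ≤ d) (M : Mod d) (hM : Nd M) (hQ : Qm M) :
    ∃ (A : ℕ) (c C : ℝ), 0 < c ∧ ∀ k n : ℕ, (k + 2) ^ A ≤ n →
      (∀ p : unitInterval, p ≤ pc M → c * ((k : ℝ) + 1) / n ≤ hol M p k n) ∧
      (∀ p : unitInterval, pc M ≤ p → (mu M p).real (Ta M 0 k n) ≤
        (n : ℝ) ^ (-(1 / 50 : ℝ)) * ((n : ℝ)⁻¹ + hol M p k n)) ∧
      (mu M (pc M)).real (Ta M 0 k n) ≤ C * (n : ℝ) ^ (-(1 / 50 : ℝ)) * hol M (pc M) k n := by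
  obtain ⟨A1, c, hc, h1⟩ := hol2_of s_two3 chain2 d M hd hM hQ
  obtain ⟨A2, h4⟩ := s_two3p d M hd hM hQ
  -- a large power of two absorbs the constant 9
  obtain ⟨D, hD⟩ : ∃ D : ℕ, (9 : ℝ) ^ 1200 ≤ (2 : ℝ) ^ D :=
    (pow_unbounded_of_one_lt _ (by norm_num : (1 : ℝ) < 2)).imp fun _ h => h.le
  have hbound : ∀ k n : ℕ, (k + 2) ^ (A1 + 2 * A2 + 4 + D) ≤ n →
      ∀ p : unitInterval, pc M ≤ p → (mu M p).real (Ta M 0 k n) ≤
        (n : ℝ) ^ (-(1 / 50 : ℝ)) * ((n : ℝ)⁻¹ + hol M p k n) := by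
    intro k n hn' p hp
    have hn : (k + 2) ^ (A1 + 2 * A2 + 4) ≤ n :=
      le_trans (Nat.pow_le_pow_right (by omega) (by omega)) hn'
    have hk2 : 2 ≤ k + 2 := by omega
    set L := n / 2 with hL
    have hbig : (k + 2) ^ A2 * (k + 2) ≤ L := by
      have e1 : (k + 2) ^ (A1 + 2 * A2 + 4) =
          ((k + 2) ^ A2 * (k + 2)) * (k + 2) * ((k + 2) ^ (A1 + A2) * ((k + 2) * (k + 2))) := by
        rw [show A1 + 2 * A2 + 4 = A2 + 1 + 1 + ((A1 + A2) + (1 + 1)) by ring, pow_add, pow_add,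
          pow_add, pow_add, pow_add]
        ring
      have e2 : 1 ≤ (k + 2) ^ (A1 + A2) * ((k + 2) * (k + 2)) := by
        have : 0 < (k + 2) ^ (A1 + A2) * ((k + 2) * (k + 2)) := by positivity
        omega
      have e3 : ((k + 2) ^ A2 * (k + 2)) * 2 ≤ n := by
        refine le_trans ?_ hn
        rw [e1]
        calc ((k + 2) ^ A2 * (k + 2)) * 2 ≤ ((k + 2) ^ A2 * (k + 2)) * (k + 2) :=
              Nat.mul_le_mul_left _ hk2
          _ = ((k + 2) ^ A2 * (k + 2)) * (k + 2) * 1 := by ring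
          _ ≤ _ := Nat.mul_le_mul_left _ e2
      omega
    have hA2L : (k + 2) ^ A2 ≤ L := le_trans (Nat.le_mul_of_pos_right _ (by omega)) hbig
    have hkL : k + 2 ≤ L := le_trans (Nat.le_mul_of_pos_left _ (by positivity)) hbig
    have hT := h4 p hp k L hA2L
    set H := hol M p k n with hH
    have hH1 : hol M p k (2 * L) ≤ H := hol_mono M p k (by omega) (by omega)
    have hT1 : (mu M p).real (Ta M 0 k n) ≤ (mu M p).real (Ta M 0 (k + 1) (2 * L)) :=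
      Ta_mono M p (by omega) (by omega) (by omega)
    have hLR : (0 : ℝ) < L := by
      have : 0 < L := by omega
      exact_mod_cast this
    have hnR : (0 : ℝ) < n := by
      have : 0 < n := by omega
      exact_mod_cast this
    have hnL : (n : ℝ) ≤ 3 * L := by
      have : n ≤ 3 * L := by omega
      exact_mod_cast this
    have hLi : (L : ℝ)⁻¹ ≤ 3 * (n : ℝ)⁻¹ := by
      rw [inv_eq_one_div, ← div_eq_mul_inv, div_le_div_iff₀ hLR hnR]
      linarith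
    have hH0 : 0 ≤ H := hol_nonneg M p k n
    have hpow : (L : ℝ) ^ (-(1 / 48 : ℝ)) ≤ 3 * (n : ℝ) ^ (-(1 / 48 : ℝ)) := by
      rw [Real.rpow_neg hLR.le, Real.rpow_neg hnR.le, ← div_eq_mul_inv, inv_eq_one_div,
        div_le_div_iff₀ (Real.rpow_pos_of_pos hLR _) (Real.rpow_pos_of_pos hnR _), one_mul]
      calc (n : ℝ) ^ (1 / 48 : ℝ) ≤ (3 * (L : ℝ)) ^ (1 / 48 : ℝ) :=
            Real.rpow_le_rpow hnR.le hnL (by norm_num)
        _ = 3 ^ (1 / 48 : ℝ) * (L : ℝ) ^ (1 / 48 : ℝ) := Real.mul_rpow (by norm_num) hLR.le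
        _ ≤ 3 * (L : ℝ) ^ (1 / 48 : ℝ) := by
            refine mul_le_mul_of_nonneg_right ?_ (Real.rpow_nonneg hLR.le _)
            calc (3 : ℝ) ^ (1 / 48 : ℝ) ≤ 3 ^ (1 : ℝ) :=
                  Real.rpow_le_rpow_of_exponent_le (by norm_num) (by norm_num)
              _ = 3 := Real.rpow_one 3
    -- the constant
    have hn9 : (9 : ℝ) ^ 1200 ≤ n := by
      have g1 : (2 : ℕ) ^ D ≤ n := by
        refine le_trans ?_ hn'
        calc 2 ^ D ≤ (k + 2) ^ D := Nat.pow_le_pow_left hk2 D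
          _ ≤ (k + 2) ^ (A1 + 2 * A2 + 4 + D) := Nat.pow_le_pow_right (by omega) (by omega)
      have g2 : ((2 : ℕ) ^ D : ℝ) ≤ n := by exact_mod_cast g1
      push_cast at g2
      linarith
    have h9 : 9 * (n : ℝ) ^ (-(1 / 48 : ℝ)) ≤ (n : ℝ) ^ (-(1 / 50 : ℝ)) := by
      have g1 : (9 : ℝ) ≤ (n : ℝ) ^ (1 / 1200 : ℝ) := by
        calc (9 : ℝ) = ((9 : ℝ) ^ 1200) ^ (1 / 1200 : ℝ) := by
              have g3 : (1 / 1200 : ℝ) = ((1200 : ℕ) : ℝ)⁻¹ := by norm_num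
              rw [g3, Real.pow_rpow_inv_natCast (by positivity) (by norm_num)]
          _ ≤ (n : ℝ) ^ (1 / 1200 : ℝ) := Real.rpow_le_rpow (by positivity) hn9 (by norm_num)
      have g2 : (n : ℝ) ^ (1 / 1200 : ℝ) * (n : ℝ) ^ (-(1 / 48 : ℝ)) =
          (n : ℝ) ^ (-(1 / 50 : ℝ)) := by
        rw [← Real.rpow_add hnR]
        norm_num
      rw [← g2]
      exact mul_le_mul_of_nonneg_right g1 (Real.rpow_nonneg hnR.le _)
    have hni : 0 ≤ (n : ℝ)⁻¹ := by positivity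
    calc (mu M p).real (Ta M 0 k n) ≤ (L : ℝ) ^ (-(1 / 48 : ℝ)) *
          ((L : ℝ)⁻¹ + hol M p k (2 * L)) := hT1.trans hT
      _ ≤ (3 * (n : ℝ) ^ (-(1 / 48 : ℝ))) * (3 * ((n : ℝ)⁻¹ + H)) := by
          refine mul_le_mul hpow (by linarith) ?_ (by positivity)
          have := hol_nonneg M p k (2 * L)
          positivity
      _ = 9 * (n : ℝ) ^ (-(1 / 48 : ℝ)) * ((n : ℝ)⁻¹ + H) := by ring
      _ ≤ _ := mul_le_mul_of_nonneg_right h9 (by linarith)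
  refine ⟨A1 + 2 * A2 + 4 + D, c, 1 / c + 1, hc, fun k n hn => ?_⟩
  have hn1 : (k + 2) ^ A1 ≤ n :=
    le_trans (Nat.pow_le_pow_right (by omega) (by omega)) hn
  have hnR : (0 : ℝ) < n := by
    have h0 : 0 < (k + 2) ^ A1 := by positivity
    have : 0 < n := by omega
    exact_mod_cast this
  refine ⟨fun p hp => (h1 k n hn1).trans (hol_par M hp k n), hbound k n hn, ?_⟩
  refine (hbound k n hn (pc M) le_rfl).trans ?_
  set H := hol M (pc M) k n with hH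
  have hH2 := h1 k n hn1
  have hk0 : (0 : ℝ) ≤ k := Nat.cast_nonneg k
  have hH3 : c / n ≤ H := by
    refine le_trans ?_ hH2
    refine div_le_div_of_nonneg_right ?_ hnR.le
    nlinarith
  have hLi : (n : ℝ)⁻¹ ≤ 1 / c * H := by
    have e2 : (n : ℝ)⁻¹ = 1 / c * (c / n) := by
      field_simp
    rw [e2]
    exact mul_le_mul_of_nonneg_left hH3 (by positivity)
  have hw : 0 ≤ (n : ℝ) ^ (-(1 / 50 : ℝ)) := Real.rpow_nonneg hnR.le _
  calc (n : ℝ) ^ (-(1 / 50 : ℝ)) * ((n : ℝ)⁻¹ + H) ≤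
      (n : ℝ) ^ (-(1 / 50 : ℝ)) * (1 / c * H + H) :=
        mul_le_mul_of_nonneg_left (by linarith) hw
    _ = (1 / c + 1) * (n : ℝ) ^ (-(1 / 50 : ℝ)) * H := by ring

end

end Pool.Agent.Y990.OA
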