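import Pool.Agent.Y990.OA.Hol3

set_option autoImplicit false

open MeasureTheory Set

/-!
Project OA: the main theorem, strengthened (exponent less than one for the holes, conditional
uniqueness, holes in every large box).
-/

namespace Pool.Agent.Y990.OA

open Pool.Agent.Y990.CB

noncomputable section

variable {d : ℕ}

/-- Interpolation between the two-arm bound and the van den Berg-Kesten inequality. -/
theorem interp {T N x y s : ℝ} (hT0 : 0 ≤ T) (hN0 : 0 < N) (hN1 : N ≤ 1) (hx0 : 0 ≤ x)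
    (hy0 : 0 < y) (hxy : 1 - x ≤ y) (h1 : T ≤ N * y) (h2 : T ≤ x ^ 2) (hs : 0 ≤ s) (hs1 : s ≤ 1) :
    T ≤ 4 * N ^ (1 - s) * x ^ (2 * s) * y := by
  rcases eq_or_lt_of_le hT0 with hT | hT
  · rw [← hT]; positivity
  by_cases hx : 1 / 2 ≤ x
  · have e1 : (1 : ℝ) / 4 ≤ x ^ (2 * s) := by
      calc (1 : ℝ) / 4 = (1 / 2 : ℝ) ^ (2 : ℝ) := by norm_num
        _ ≤ (1 / 2 : ℝ) ^ (2 * s) :=
            Real.rpow_le_rpow_of_exponent_ge (by norm_num) (by norm_num) (by linarith)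
        _ ≤ x ^ (2 * s) := Real.rpow_le_rpow (by norm_num) hx (by linarith)
    have e2 : N ≤ N ^ (1 - s) := by
      calc N = N ^ (1 : ℝ) := (Real.rpow_one N).symm
        _ ≤ N ^ (1 - s) := Real.rpow_le_rpow_of_exponent_ge hN0 hN1 (by linarith)
    have e3 : 0 ≤ N ^ (1 - s) := Real.rpow_nonneg hN0.le _
    calc T ≤ N * y := h1
      _ ≤ N ^ (1 - s) * y := mul_le_mul_of_nonneg_right e2 hy0.le
      _ = (N ^ (1 - s) * y) * 1 := (mul_one _).symm
      _ ≤ (N ^ (1 - s) * y) * (4 * x ^ (2 * s)) :=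
          mul_le_mul_of_nonneg_left (by linarith) (by positivity)
      _ = _ := by ring
  · push Not at hx
    have hy2 : 1 / 2 ≤ y := by linarith
    have e1 : T = T ^ (1 - s) * T ^ s := by
      rw [← Real.rpow_add hT]
      norm_num
    have e2 : T ^ (1 - s) ≤ N ^ (1 - s) * y ^ (1 - s) := by
      rw [← Real.mul_rpow hN0.le hy0.le]
      exact Real.rpow_le_rpow hT0 h1 (by linarith)
    have e3 : T ^ s ≤ x ^ (2 * s) := by
      calc T ^ s ≤ (x ^ 2) ^ s := Real.rpow_le_rpow hT0 h2 hs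
        _ = x ^ (2 * s) := by
            rw [Real.rpow_mul hx0]
            norm_num
    have e4 : y ^ (1 - s) ≤ 4 * y := by
      have g1 : y ^ (1 - s) = y * (y⁻¹) ^ s := by
        rw [Real.inv_rpow hy0.le, ← Real.rpow_neg hy0.le]
        rw [show (1 : ℝ) - s = 1 + -s by ring, Real.rpow_add hy0, Real.rpow_one]
      have g2 : y⁻¹ ≤ 2 := by
        rw [inv_le_comm₀ hy0 (by norm_num)]
        linarith
      have g3 : (y⁻¹) ^ s ≤ 2 := by
        calc (y⁻¹) ^ s ≤ 2 ^ s := Real.rpow_le_rpow (by positivity) g2 hs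
          _ ≤ 2 ^ (1 : ℝ) := Real.rpow_le_rpow_of_exponent_le (by norm_num) hs1
          _ = 2 := Real.rpow_one 2
      rw [g1]
      nlinarith
    have h5 : 0 ≤ N ^ (1 - s) := Real.rpow_nonneg hN0.le _
    have h6 : 0 ≤ x ^ (2 * s) := Real.rpow_nonneg hx0 _
    calc T = T ^ (1 - s) * T ^ s := e1
      _ ≤ (N ^ (1 - s) * y ^ (1 - s)) * x ^ (2 * s) :=
          mul_le_mul e2 e3 (Real.rpow_nonneg hT0 _) (by positivity)
      _ ≤ (N ^ (1 - s) * (4 * y)) * x ^ (2 * s) :=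
          mul_le_mul_of_nonneg_right (mul_le_mul_of_nonneg_left e4 h5) h6
      _ = _ := by ring

/-- The two-arm bound with the probability of a crossing cluster. -/
theorem two_s (hbk : S_bk2) (M : Mod d) (p : unitInterval) {k n : ℕ} (hn : 1 ≤ n)
    (h : (mu M p).real (Ta M 0 k n) ≤ (n : ℝ) ^ (-(1 / 50 : ℝ)) * ((n : ℝ)⁻¹ + hol M p k n))
    {s : ℝ} (hs : 0 ≤ s) (hs1 : s ≤ 1) :
    (mu M p).real (Ta M 0 k n) ≤ 4 * (n : ℝ) ^ (-((1 - s) / 50)) * (1 - hol M p k n) ^ (2 * s) *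
      ((n : ℝ)⁻¹ + hol M p k n) := by
  have hnR : (1 : ℝ) ≤ n := by exact_mod_cast hn
  have h0 : 0 ≤ hol M p k n := hol_nonneg M p k n
  have h1 : hol M p k n ≤ 1 := by
    unfold hol
    exact measureReal_le_one
  have hN : ((n : ℝ) ^ (-(1 / 50 : ℝ))) ^ (1 - s) = (n : ℝ) ^ (-((1 - s) / 50)) := by
    rw [← Real.rpow_mul (by linarith)]
    congr 1
    ring
  rw [← hN]
  refine interp measureReal_nonneg (Real.rpow_pos_of_pos (by linarith) _) ?_ (by linarith) ?_ ?_ h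
    (hbk d M p k n) hs hs1
  · exact Real.rpow_le_one_of_one_le_of_nonpos hnR (by norm_num)
  · have : (0 : ℝ) < (n : ℝ)⁻¹ := by positivity
    linarith
  · have : (0 : ℝ) < (n : ℝ)⁻¹ := by positivity
    linarith

/-- Holes of polynomial size with exponent less than one. -/
theorem hol_root {M : Mod d} {A : ℕ} {c : ℝ} (hA : 1 ≤ A) (hc : 0 < c)
    (h : ∀ k w n : ℕ, k + 1 ≤ w → (w + 1) ^ A ≤ n → c * (w : ℝ) / n ≤ hol M (pc M) k n)
    {B k n : ℕ} (hB : A ≤ B) (hn : (k + 2) ^ B ≤ n) :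
    c / 4 * (n : ℝ) ^ (1 / B : ℝ) / n ≤ hol M (pc M) k n := by
  have hn1 : 1 ≤ n := le_trans (Nat.one_le_pow _ _ (by omega)) hn
  have hnR : (1 : ℝ) ≤ n := by exact_mod_cast hn1
  have hB0 : (0 : ℝ) < B := by
    have : 0 < B := by omega
    exact_mod_cast this
  set t : ℝ := (n : ℝ) ^ (1 / B : ℝ) with ht
  have ht0 : 0 ≤ t := Real.rpow_nonneg (by linarith) _
  have htB : t ^ B = n := by
    rw [ht, ← Real.rpow_natCast, ← Real.rpow_mul (by linarith)]
    rw [one_div, inv_mul_cancel₀ hB0.ne', Real.rpow_one]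
  have hkt : (k : ℝ) + 2 ≤ t := by
    by_contra hlt
    push Not at hlt
    have h1 : t ^ B < ((k : ℝ) + 2) ^ B := pow_lt_pow_left₀ hlt ht0 (by omega)
    rw [htB] at h1
    have h2 : (((k + 2) ^ B : ℕ) : ℝ) ≤ n := by exact_mod_cast hn
    push_cast at h2
    linarith
  set r := ⌊t⌋₊ with hr
  have hrk : k + 2 ≤ r := by
    apply Nat.le_floor
    push_cast
    exact hkt
  have hrt : (r : ℝ) ≤ t := Nat.floor_le ht0
  have hrt' : t < r + 1 := Nat.lt_floor_add_one t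
  have hrn : r ^ A ≤ n := by
    have h1 : ((r ^ B : ℕ) : ℝ) ≤ n := by
      push_cast
      rw [← htB]
      exact pow_le_pow_left₀ (Nat.cast_nonneg r) hrt B
    have h2 : r ^ B ≤ n := by exact_mod_cast h1
    exact le_trans (Nat.pow_le_pow_right (by omega) hB) h2
  have h3 := h k (r - 1) n (by omega) (by rw [show r - 1 + 1 = r by omega]; exact hrn)
  refine le_trans ?_ h3
  refine div_le_div_of_nonneg_right ?_ (by linarith)
  have h4 : ((r - 1 : ℕ) : ℝ) = (r : ℝ) - 1 := by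
    rw [Nat.cast_sub (by omega)]
    simp
  rw [h4]
  have h5 : (2 : ℝ) ≤ r := by
    have : 2 ≤ r := by omega
    exact_mod_cast this
  nlinarith

/-- **Main theorem of the project OA**, strengthened. -/
theorem main5 (hbk : S_bk2) (hasu : S_asu) (hd : 3 ≤ d) (M : Mod d) (hM : Nd M) (hQ : Qm M) :
    ∃ (A : ℕ) (c C : ℝ), 1 ≤ A ∧ 0 < c ∧ 0 ≤ C ∧ (∀ k n : ℕ, (k + 2) ^ A ≤ n →
      (∀ p : unitInterval, p ≤ pc M → c * (n : ℝ) ^ (1 / A : ℝ) / n ≤ hol M p k n) ∧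
      (∀ p : unitInterval, pc M ≤ p → ∀ s : ℝ, 0 ≤ s → s ≤ 1 →
        (mu M p).real (Ta M 0 k n) ≤ 4 * (n : ℝ) ^ (-((1 - s) / 50)) *
          (1 - hol M p k n) ^ (2 * s) * ((n : ℝ)⁻¹ + hol M p k n)) ∧
      (∀ s : ℝ, 0 ≤ s → s ≤ 1 → (mu M (pc M)).real (Ta M 0 k n) ≤
        C * (n : ℝ) ^ (-((1 - s) / 50)) * (1 - hol M (pc M) k n) ^ (2 * s) *
          hol M (pc M) k n)) ∧
      (∀ k : ℕ, c / ((k : ℝ) + 2) ^ A ≤
        (mu M (pc M)).real {ω | (cl M ω univ 0).Finite ∧ ∃ x ∈ Fr (0 : Z d) k,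
          x ∈ cl M ω univ 0}) ∧
      ∀ᵐ ω ∂(mu M (pc M)), ∃ n0 : ℕ, ∀ n : ℕ, n0 ≤ n → ∀ k : ℕ, (k + 2) ^ A ≤ n →
        ∃ z ∈ Bo (0 : Z d) n, ∃ m : ℕ, k < m ∧ m ≤ n ∧ ω ∉ Lk M (Bo z m) (Bo z k) (Fr z m) := by
  obtain ⟨A1, c1, C1, hA1, hc1, h1, h2⟩ := main4 hd M hM hQ
  obtain ⟨A2, c2, hA2, hc2, h3⟩ := hol3_of s_two3 chain2 d M hd hM hQ
  -- holes
  have hroot : ∀ k n : ℕ, (k + 2) ^ A2 ≤ n → c2 / 4 / n ≤ hol M (pc M) k n := by
    intro k n hn
    have h4 := hol_root hA2 hc2 h3 (le_refl A2) hn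
    refine le_trans ?_ h4
    have hn1 : 1 ≤ n := le_trans (Nat.one_le_pow _ _ (by omega)) hn
    have hnR : (1 : ℝ) ≤ n := by exact_mod_cast hn1
    refine div_le_div_of_nonneg_right ?_ (by linarith)
    have h5 : (1 : ℝ) ≤ (n : ℝ) ^ (1 / A2 : ℝ) := Real.one_le_rpow hnR (by positivity)
    nlinarith
  have hA := hasu d M (pc M) A2 (c2 / 4) (by omega) hA2 (by positivity) hroot
  set c := min c1 (c2 / 4) with hc
  have hc0 : 0 < c := lt_min hc1 (by positivity)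
  refine ⟨A1 + 4 * A2, c, 4 * (4 / c2 + 1), by omega, hc0, by positivity, ?_, ?_, ?_⟩
  · intro k n hn
    have hn1 : 1 ≤ n := le_trans (Nat.one_le_pow _ _ (by omega)) hn
    have hnR : (1 : ℝ) ≤ n := by exact_mod_cast hn1
    have hnA1 : (k + 2) ^ A1 ≤ n := le_trans (Nat.pow_le_pow_right (by omega) (by omega)) hn
    have hnA2 : (k + 2) ^ A2 ≤ n := le_trans (Nat.pow_le_pow_right (by omega) (by omega)) hn
    have g1 : c * (n : ℝ) ^ (1 / (A1 + 4 * A2 : ℕ) : ℝ) / n ≤ hol M (pc M) k n := by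
      refine le_trans ?_ (hol_root hA2 hc2 h3 (B := A1 + 4 * A2) (by omega) hn)
      refine div_le_div_of_nonneg_right ?_ (by linarith)
      exact mul_le_mul_of_nonneg_right (min_le_right _ _) (Real.rpow_nonneg (by linarith) _)
    have g2 : ∀ p : unitInterval, pc M ≤ p → ∀ s : ℝ, 0 ≤ s → s ≤ 1 →
        (mu M p).real (Ta M 0 k n) ≤ 4 * (n : ℝ) ^ (-((1 - s) / 50)) *
          (1 - hol M p k n) ^ (2 * s) * ((n : ℝ)⁻¹ + hol M p k n) :=
      fun p hp s hs hs1 => two_s hbk M p hn1 ((h1 k n hnA1).2.1 p hp) hs hs1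
    refine ⟨fun p hp => g1.trans (hol_par M hp k n), g2, fun s hs hs1 => ?_⟩
    refine (g2 (pc M) le_rfl s hs hs1).trans ?_
    set H := hol M (pc M) k n with hH
    have hH0 : 0 ≤ H := hol_nonneg M _ k n
    have hH1 : H ≤ 1 := by
      rw [hH]; unfold hol
      exact measureReal_le_one
    have hLi : (n : ℝ)⁻¹ ≤ 4 / c2 * H := by
      have e1 := hroot k n hnA2
      have e2 : (n : ℝ)⁻¹ = 4 / c2 * (c2 / 4 / n) := by
        field_simp
      rw [e2]
      exact mul_le_mul_of_nonneg_left e1 (by positivity)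
    have hw : 0 ≤ (n : ℝ) ^ (-((1 - s) / 50)) := Real.rpow_nonneg (by linarith) _
    have hx : 0 ≤ (1 - H) ^ (2 * s) := Real.rpow_nonneg (by linarith) _
    calc 4 * (n : ℝ) ^ (-((1 - s) / 50)) * (1 - H) ^ (2 * s) * ((n : ℝ)⁻¹ + H) ≤
        4 * (n : ℝ) ^ (-((1 - s) / 50)) * (1 - H) ^ (2 * s) * (4 / c2 * H + H) :=
          mul_le_mul_of_nonneg_left (by linarith) (by positivity)
      _ = _ := by ring
  · intro k
    refine le_trans ?_ (h2 k)
    have hk0 : (0 : ℝ) ≤ k := Nat.cast_nonneg k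
    calc c / ((k : ℝ) + 2) ^ (A1 + 4 * A2) ≤ c / ((k : ℝ) + 2) ^ A1 := by
          refine div_le_div_of_nonneg_left hc0.le (by positivity) ?_
          exact pow_le_pow_right₀ (by linarith) (by omega)
      _ ≤ c1 / ((k : ℝ) + 2) ^ A1 :=
          div_le_div_of_nonneg_right (min_le_left _ _) (by positivity)
  · filter_upwards [hA] with ω hω
    obtain ⟨n0, hn0⟩ := hω
    refine ⟨n0, fun n hn k hk => ?_⟩
    have hk4 : (k + 2) ^ (4 * A2) ≤ n :=
      le_trans (Nat.pow_le_pow_right (by omega) (by omega)) hk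
    obtain ⟨z, hz, hzL⟩ := hn0 n hn k hk4
    refine ⟨z, hz, (k + 2) ^ A2, ?_, ?_, hzL⟩
    · have : (k + 2) ^ 1 ≤ (k + 2) ^ A2 := Nat.pow_le_pow_right (by omega) hA2
      rw [pow_one] at this
      omega
    · exact le_trans (Nat.pow_le_pow_right (by omega) (by omega)) hk

end

end Pool.Agent.Y990.OA
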