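import Pool.Agent.Y990.OA.Main5
import Pool.Agent.Y455.OA.Bk2
import Pool.Agent.Y604.OA.Row
import Pool.Agent.Y492.OA.Asu

set_option autoImplicit false

open MeasureTheory Set

/-!
Project OA: the strengthened main theorem (parts by helper455, helper604, helper492).
-/

namespace Pool.Agent.Y990.OA

open Pool.Agent.Y990.CB

noncomputable section

variable {d : ℕ}

/-- Clusters meeting a hole stay near it. -/
theorem hole_stay {M : Mod d} {ω : M.ι → Bool} {z : Z d} {k m n : ℕ} (hkm : k < m) (hmn : m ≤ n)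
    (h : ω ∉ Lk M (Bo z m) (Bo z k) (Fr z m)) {x y : Z d} (hx : x ∈ Bo z k)
    (hy : (G M ω univ).Reachable x y) : y ∈ Bo z n := by
  by_contra hyn
  have hym : y ∉ Bo z m := fun hc => hyn (Bo_mono z hmn hc)
  obtain ⟨x', h1, h2⟩ := exit_Am (Bo_mono z hkm.le hx) (Or.inl hym) hy
  exact h ⟨x, hx, x', h1, h2⟩

/-- **Main theorem of the project OA**, strengthened. -/
theorem main6 (hd : 3 ≤ d) (M : Mod d) (hM : Nd M) (hQ : Qm M) :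
    ∃ (A : ℕ) (c C : ℝ), 1 ≤ A ∧ 0 < c ∧ 0 ≤ C ∧ (∀ k n : ℕ, (k + 2) ^ A ≤ n →
      (∀ p : unitInterval, p ≤ pc M → c * (n : ℝ) ^ (1 / A : ℝ) / n ≤ hol M p k n) ∧
      (∀ p : unitInterval, pc M ≤ p → ∀ s : ℝ, 0 ≤ s → s ≤ 1 →
        (mu M p).real (Ta M 0 k n) ≤ 4 * (n : ℝ) ^ (-((1 - s) / 50)) *
          (1 - hol M p k n) ^ (2 * s) * ((n : ℝ)⁻¹ + hol M p k n)) ∧
      (∀ s : ℝ, 0 ≤ s → s ≤ 1 → (mu M (pc M)).real (Ta M 0 k n) ≤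
        C * (n : ℝ) ^ (-((1 - s) / 50)) * (1 - hol M (pc M) k n) ^ (2 * s) *
          hol M (pc M) k n)) ∧
      (∀ k : ℕ, c / ((k : ℝ) + 2) ^ A ≤
        (mu M (pc M)).real {ω | (cl M ω univ 0).Finite ∧ ∃ x ∈ Fr (0 : Z d) k,
          x ∈ cl M ω univ 0}) ∧
      ∀ᵐ ω ∂(mu M (pc M)), ∃ n0 : ℕ, ∀ n : ℕ, n0 ≤ n → ∀ k : ℕ, (k + 2) ^ A ≤ n →
        ∃ z ∈ Bo (0 : Z d) n, ∃ m : ℕ, k < m ∧ m ≤ n ∧ ω ∉ Lk M (Bo z m) (Bo z k) (Fr z m) :=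
  main5 Pool.Agent.Y455.OA.bk2 (Pool.Agent.Y492.OA.asu Pool.Agent.Y604.OA.row) hd M hM hQ

end

end Pool.Agent.Y990.OA
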