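import Pool.Agent.Y990.OA.Main3

set_option autoImplicit false

open MeasureTheory Set

/-!
Project OA: finite clusters at the critical point have a polynomial tail.
-/

namespace Pool.Agent.Y990.OA

open Pool.Agent.W783.PC (pm DepOn Inc)
open Pool.Agent.Y990.CB

noncomputable section

variable {d : ℕ}

/-- A path from the outside into the box of radius `k`, before it enters the box. -/
theorem last_exit {M : Mod d} {ω : M.ι → Bool} {k : ℕ} {R : Set (Z d)} {u v : Z d}
    (hu : u ∉ Bo (0 : Z d) k) (hv : v ∈ Bo (0 : Z d) k) (h : (G M ω R).Reachable u v) :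
    ∃ z ∈ Fr (0 : Z d) (k + 1), (G M ω (R \ Bo 0 k)).Reachable u z := by
  obtain ⟨q⟩ := h
  induction q with
  | nil => exact absurd hv hu
  | cons h q ih =>
    rename_i a b c
    by_cases hb : b ∈ Bo (0 : Z d) k
    · refine ⟨a, ⟨?_, ?_⟩, SimpleGraph.Reachable.refl _⟩
      · intro i
        have h1 := hb i
        have h2 := Nb_coord h.1 i
        rw [abs_le] at h1 h2 ⊢
        push_cast
        constructor <;> linarith [h1.1, h1.2, h2.1, h2.2]
      · have hex : ∃ i, (k : ℤ) < |a i - (0 : Z d) i| := by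
          by_contra hc
          push Not at hc
          exact hu hc
        obtain ⟨i, hi⟩ := hex
        refine ⟨i, ?_⟩
        have h1 := hb i
        have h2 := Nb_coord h.1 i
        have h3 : |a i - (0 : Z d) i| ≤ |a i - b i| + |b i - (0 : Z d) i| := abs_sub_le _ _ _
        push_cast
        omega
    · obtain ⟨z, hz, hr⟩ := ih hb hv
      refine ⟨z, hz, SimpleGraph.Reachable.trans (SimpleGraph.Adj.reachable ?_) hr⟩
      exact ⟨h.1, ⟨h.2.1, hu⟩, ⟨h.2.2.1, hb⟩, h.2.2.2⟩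

/-- A lower bound for the one-arm probability at the critical point. -/
theorem arm_low (hd : 1 ≤ d) (M : Mod d) (hM : Nd M) (k : ℕ) :
    1 / (2 * d * ((2 * k + 1 : ℕ) : ℝ) ^ d) ≤ (mu M (pc M)).real {ω | Am M ω 0 k 0} := by
  have h1 := Pool.Agent.Y333.CB.phi d M k hd hM
  set a := (mu M (pc M)).real {ω | Am M ω 0 k 0} with ha
  have h2 : ∑ x ∈ Ff (0 : Z d) k, (mu M (pc M)).real (Cn M (Bo 0 k) 0 x) ≤
      ((2 * k + 1 : ℕ) : ℝ) ^ d * a := by
    calc ∑ x ∈ Ff (0 : Z d) k, (mu M (pc M)).real (Cn M (Bo 0 k) 0 x)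
        ≤ ∑ x ∈ Ff (0 : Z d) k, a := by
          refine Finset.sum_le_sum fun x hx => ?_
          refine measureReal_mono ?_ (measure_ne_top _ _)
          intro ω hω
          exact ⟨x, Pool.Agent.Y333.CB.mem_Ff.1 hx, hω⟩
      _ = (Ff (0 : Z d) k).card * a := by rw [Finset.sum_const, nsmul_eq_mul]
      _ ≤ _ := by
          refine mul_le_mul_of_nonneg_right ?_ measureReal_nonneg
          exact (Pool.Agent.Y350.OA.xi d M (pc M) k 0 0 le_rfl).2.2.2
  have hd0 : (0 : ℝ) < d := by exact_mod_cast hd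
  have hV : (0 : ℝ) < ((2 * k + 1 : ℕ) : ℝ) ^ d := by positivity
  rw [div_le_iff₀ (by positivity)]
  calc (1 : ℝ) ≤ 2 * d * ∑ x ∈ Ff (0 : Z d) k, (mu M (pc M)).real (Cn M (Bo 0 k) 0 x) := h1
    _ ≤ 2 * d * (((2 * k + 1 : ℕ) : ℝ) ^ d * a) := mul_le_mul_of_nonneg_left h2 (by positivity)
    _ = a * (2 * d * ((2 * k + 1 : ℕ) : ℝ) ^ d) := by ring

/-- The cluster of the origin is finite and reaches the frame of the box of radius `k`. -/
theorem fin_tail (hd : 1 ≤ d) (M : Mod d) (hM : Nd M) {k n : ℕ} (hkn : k + 1 < n) :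
    1 / (2 * d * ((2 * k + 1 : ℕ) : ℝ) ^ d) * hol M (pc M) (k + 1) n ≤
      (mu M (pc M)).real {ω | (cl M ω univ 0).Finite ∧ ∃ x ∈ Fr (0 : Z d) k,
        x ∈ cl M ω univ 0} := by
  set p := pc M with hp
  set E1 : Set (M.ι → Bool) := {ω | Am M ω 0 k 0} with hE1
  set E2 : Set (M.ι → Bool) :=
    (Lk M (Bo 0 n \ Bo 0 k) (Fr 0 (k + 1)) (Fr 0 n))ᶜ with hE2
  have hdis : Disjoint (In M (Bo (0 : Z d) k)) (In M (Bo (0 : Z d) n \ Bo 0 k)) :=
    In_disj M Set.disjoint_sdiff_right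
  have hdep2 : DepOn E2 (In M (Bo (0 : Z d) n \ Bo 0 k)) := by
    intro ω ω' h
    exact not_congr (Lk_dep M (Bo 0 n \ Bo 0 k) (Fr 0 (k + 1)) (Fr 0 n) ω ω' h)
  have hind : (mu M p).real (E1 ∩ E2) = (mu M p).real E1 * (mu M p).real E2 := by
    unfold Measure.real mu
    rw [Pool.Agent.W45.PC.s_indep M.ι (fun _ => p) _ _ _ _ (Am_dep M 0 k 0) hdep2 hdis
      (Am_meas M 0 k 0) (Lk_meas M _ _ _).compl, ENNReal.toReal_mul]
  have h2 : hol M p (k + 1) n ≤ (mu M p).real E2 := by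
    unfold hol
    refine measureReal_mono ?_ (measure_ne_top _ _)
    intro ω hω hL
    obtain ⟨x, hx, y, hy, hr⟩ := hL
    exact hω ⟨x, hx.1, y, hy, reach_mono Set.sdiff_subset hr⟩
  calc 1 / (2 * d * ((2 * k + 1 : ℕ) : ℝ) ^ d) * hol M p (k + 1) n
      ≤ (mu M p).real E1 * (mu M p).real E2 :=
        mul_le_mul (arm_low hd M hM k) h2 (hol_nonneg M p _ _) measureReal_nonneg
    _ = (mu M p).real (E1 ∩ E2) := hind.symm
    _ ≤ _ := by
      refine measureReal_mono ?_ (measure_ne_top _ _)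
      rintro ω ⟨⟨x, hx, hr⟩, h3⟩
      refine ⟨?_, x, hx, reach_mono (subset_univ _) hr⟩
      by_contra hinf
      have h4 : ∃ y ∈ cl M ω univ 0, y ∉ Bo (0 : Z d) n := by
        by_contra hc
        push Not at hc
        exact hinf ((Bo_finite 0 n).subset hc)
      obtain ⟨y, hy, hyn⟩ := h4
      obtain ⟨x', hx', hr'⟩ := exit_box (self_mem_Bo 0 n) hyn hy
      have hx'k : x' ∉ Bo (0 : Z d) k := by
        intro hc
        obtain ⟨i, hi⟩ := hx'.2
        have := hc i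
        rw [hi] at this
        have h5 : n ≤ k := by exact_mod_cast this
        omega
      obtain ⟨z, hz, hzr⟩ := last_exit hx'k (self_mem_Bo 0 k) hr'.symm
      refine h3 ⟨z, hz, x', hx', ?_⟩
      refine reach_mono ?_ hzr.symm
      exact Set.sdiff_subset_sdiff_left Set.inter_subset_right

/-- **Main theorem of the project OA**, with all parts. -/
theorem main4 (hd : 3 ≤ d) (M : Mod d) (hM : Nd M) (hQ : Qm M) :
    ∃ (A : ℕ) (c C : ℝ), 1 ≤ A ∧ 0 < c ∧ (∀ k n : ℕ, (k + 2) ^ A ≤ n →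
      (∀ p : unitInterval, p ≤ pc M → c * ((k : ℝ) + 1) / n ≤ hol M p k n) ∧
      (∀ p : unitInterval, pc M ≤ p → (mu M p).real (Ta M 0 k n) ≤
        (n : ℝ) ^ (-(1 / 50 : ℝ)) * ((n : ℝ)⁻¹ + hol M p k n)) ∧
      (mu M (pc M)).real (Ta M 0 k n) ≤ C * (n : ℝ) ^ (-(1 / 50 : ℝ)) * hol M (pc M) k n) ∧
      ∀ k : ℕ, c / ((k : ℝ) + 2) ^ A ≤
        (mu M (pc M)).real {ω | (cl M ω univ 0).Finite ∧ ∃ x ∈ Fr (0 : Z d) k,
          x ∈ cl M ω univ 0} := by
  obtain ⟨A0, c, C, hc, h⟩ := main3 hd M hM hQ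
  have hdR : (3 : ℝ) ≤ d := by exact_mod_cast hd
  set A := A0 + 1 with hAd
  have hA : ∀ k n : ℕ, (k + 2) ^ (2 * A + 2 * d) ≤ n → (k + 2) ^ A0 ≤ n := fun k n hn =>
    le_trans (Nat.pow_le_pow_right (by omega) (by omega)) hn
  refine ⟨2 * A + 2 * d, c / (2 * d), C, by omega, by positivity, ?_, ?_⟩
  · intro k n hn
    obtain ⟨g1, g2, g3⟩ := h k n (hA k n hn)
    refine ⟨fun p hp => le_trans ?_ (g1 p hp), g2, g3⟩
    refine div_le_div_of_nonneg_right ?_ (Nat.cast_nonneg n)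
    refine mul_le_mul_of_nonneg_right ?_ (by positivity)
    exact div_le_self hc.le (by linarith)
  · intro k
    set n := (k + 1 + 2) ^ A with hn
    have hkn : k + 1 < n := by
      have h0 : 1 ≤ (k + 1 + 2) ^ A0 := Nat.one_le_pow _ _ (by omega)
      have h1 : k + 1 + 2 ≤ (k + 1 + 2) ^ A := by
        rw [hAd, pow_succ]
        exact Nat.le_mul_of_pos_left _ (by omega)
      omega
    have h3 := (h (k + 1) n (by
      rw [hn]
      exact Nat.pow_le_pow_right (by omega) (by omega))).1 (pc M) le_rfl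
    have h4 := fin_tail (by omega) M hM hkn
    refine le_trans ?_ h4
    have hk0 : (0 : ℝ) ≤ k := Nat.cast_nonneg k
    have e2 : ((k : ℝ) + 3) ≤ ((k : ℝ) + 2) ^ 2 := by nlinarith
    have h5 : c / ((k : ℝ) + 2) ^ (2 * A) ≤ hol M (pc M) (k + 1) n := by
      refine le_trans ?_ h3
      have e1 : (n : ℝ) = ((k : ℝ) + 3) ^ A := by
        rw [hn]; push_cast; ring
      rw [e1]
      have e3 : ((k : ℝ) + 3) ^ A ≤ ((k : ℝ) + 2) ^ (2 * A) := by
        rw [pow_mul]
        exact pow_le_pow_left₀ (by linarith) e2 A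
      calc c / ((k : ℝ) + 2) ^ (2 * A) ≤ c / ((k : ℝ) + 3) ^ A :=
            div_le_div_of_nonneg_left hc.le (by positivity) e3
        _ ≤ c * (((k + 1 : ℕ) : ℝ) + 1) / ((k : ℝ) + 3) ^ A := by
            refine div_le_div_of_nonneg_right ?_ (by positivity)
            push_cast
            nlinarith
    have h6 : 1 / (2 * d * ((k : ℝ) + 2) ^ (2 * d)) ≤
        1 / (2 * d * ((2 * k + 1 : ℕ) : ℝ) ^ d) := by
      refine one_div_le_one_div_of_le (by positivity) ?_
      refine mul_le_mul_of_nonneg_left ?_ (by positivity)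
      rw [pow_mul]
      refine pow_le_pow_left₀ (by positivity) ?_ d
      push_cast
      nlinarith
    calc c / (2 * d) / ((k : ℝ) + 2) ^ (2 * A + 2 * d) =
          1 / (2 * d * ((k : ℝ) + 2) ^ (2 * d)) * (c / ((k : ℝ) + 2) ^ (2 * A)) := by
          rw [pow_add]
          field_simp
      _ ≤ _ := mul_le_mul h6 h5 (by positivity) (by positivity)

end

end Pool.Agent.Y990.OA
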