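import Pool.Agent.Y990.OA.Stm4
import Pool.Agent.Y990.OA.Tail

set_option autoImplicit false

open MeasureTheory Set

/-!
The expected number of spanning clusters of a cube (project OA).
-/

namespace Pool.Agent.Y990.OA

open Pool.Agent.Y990.CB
open H974 (ind)

noncomputable section

variable {d : ℕ}

/-- Functions of finitely many coordinates are measurable. -/
theorem meas_of_dep {ι : Type} {f : (ι → Bool) → ℝ} {S : Set ι} (hS : S.Finite)
    (h : ∀ ω ω' : ι → Bool, (∀ c ∈ S, ω c = ω' c) → f ω = f ω') : Measurable f := by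
  classical
  have : Finite S := hS.to_subtype
  let r : (ι → Bool) → (S → Bool) := fun ω c => ω c.1
  let e : (S → Bool) → (ι → Bool) := fun g c => if hc : c ∈ S then g ⟨c, hc⟩ else false
  have hr : Measurable r := measurable_pi_lambda _ fun c => measurable_pi_apply c.1
  have hfe : f = (fun g => f (e g)) ∘ r := by
    funext ω
    refine h _ _ fun c hc => ?_
    simp [e, r, hc]
  rw [hfe]
  exact (measurable_of_finite _).comp hr

theorem Qb_finite (d n : ℕ) : (Qb d n).Finite := by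
  refine (Bo_finite (0 : Z d) n).subset ?_
  intro x hx j
  have := hx j
  rw [Pi.zero_apply, sub_zero, abs_of_nonneg this.1]
  exact this.2

theorem Sp_meas (M : Mod d) (i : Fin d) (n : ℕ) :
    Measurable (fun ω => ((Sp M i n ω).ncard : ℝ)) := by
  refine meas_of_dep (In_fin M (Qb_finite d n)) ?_
  intro ω ω' h
  unfold Sp cl
  rw [graph_congr h]

theorem Sp_int (hc : S_scard) (M : Mod d) (p : unitInterval) (i : Fin d) (n : ℕ) :
    Integrable (fun ω => ((Sp M i n ω).ncard : ℝ)) (mu M p) := by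
  refine Integrable.of_bound (Sp_meas M i n).aestronglyMeasurable (((n : ℝ) + 1) ^ (d - 1)) ?_
  refine Filter.Eventually.of_forall fun ω => ?_
  rw [Real.norm_of_nonneg (Nat.cast_nonneg _)]
  exact hc.2 d M i n ω

theorem int_ind {M : Mod d} (p : unitInterval) {A : Set (M.ι → Bool)} (hA : MeasurableSet A) :
    Integrable (fun ω => ind (ω ∈ A)) (mu M p) ∧
    ∫ ω, ind (ω ∈ A) ∂(mu M p) = (mu M p).real A := by
  classical
  have e : (fun ω => ind (ω ∈ A)) = A.indicator (fun _ => (1 : ℝ)) := by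
    funext ω
    by_cases h : ω ∈ A
    · rw [H974.ind_of h, Set.indicator_of_mem h]
    · rw [H974.ind_not_of h, Set.indicator_of_notMem h]
  rw [e]
  refine ⟨(integrable_const 1).indicator hA, ?_⟩
  rw [integral_indicator_const _ hA]
  simp

/-- The expected number of spanning clusters and the two-arm probability. -/
theorem smean (hs : S_sdet) (hc : S_scard) (hd : 2 ≤ d) (M : Mod d) (p : unitInterval) (i : Fin d)
    {k m n : ℕ} (hkm : k ≤ m) (hmn : 2 * m ≤ n) (hn : 1 ≤ n) :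
    ∫ ω, ((Sp M i n ω).ncard : ℝ) ∂(mu M p) ≤ ((n / (2 * k + 1) + 2 : ℕ) : ℝ) ^ (d - 1) *
      (1 + ((2 * k + 1 : ℕ) : ℝ) ^ d * (mu M p).real (Ta M 0 k m)) +
      2 * d * (m + k + 1) * ((n : ℝ) + 1) ^ (d - 2) := by
  set X : ℝ := ((n / (2 * k + 1) + 2 : ℕ) : ℝ) ^ (d - 1) with hX
  set Y : ℝ := ((2 * k + 1 : ℕ) : ℝ) ^ d with hY
  set W : ℝ := 2 * d * (m + k + 1) * ((n : ℝ) + 1) ^ (d - 2) with hW
  set T : ℝ := (mu M p).real (Ta M 0 k m) with hT
  have hT0 : 0 ≤ T := measureReal_nonneg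
  have hY0 : 0 ≤ Y := by positivity
  have hi : ∀ z ∈ Tl i n k, Integrable (fun ω => ind (ω ∈ Ta M z k m)) (mu M p) :=
    fun z _ => (int_ind p (Ta_meas M z k m)).1
  have hsi : Integrable (fun ω => ∑ z ∈ Tl i n k, ind (ω ∈ Ta M z k m)) (mu M p) :=
    integrable_finsetSum _ hi
  have h1 : ∫ ω, ((Sp M i n ω).ncard : ℝ) ∂(mu M p) ≤
      ∫ ω, (X + Y * ∑ z ∈ Tl i n k, ind (ω ∈ Ta M z k m) + W) ∂(mu M p) := by
    refine integral_mono (Sp_int hc M p i n) ?_ ?_
    · exact ((integrable_const X).add (hsi.const_mul Y)).add (integrable_const W)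
    · intro ω
      exact hs d M i k m n ω hd hkm hmn hn
  have h2 : ∫ ω, (X + Y * ∑ z ∈ Tl i n k, ind (ω ∈ Ta M z k m) + W) ∂(mu M p) =
      X + Y * ∑ z ∈ Tl i n k, (mu M p).real (Ta M z k m) + W := by
    have e1 : Integrable (fun ω => X + Y * ∑ z ∈ Tl i n k, ind (ω ∈ Ta M z k m)) (mu M p) :=
      (integrable_const X).add (hsi.const_mul Y)
    have e2 : Integrable (fun ω => Y * ∑ z ∈ Tl i n k, ind (ω ∈ Ta M z k m)) (mu M p) :=
      hsi.const_mul Y
    rw [integral_add e1 (integrable_const W), integral_add (integrable_const X) e2,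
      integral_const_mul, integral_finsetSum _ hi]
    simp only [integral_const, probReal_univ, smul_eq_mul, one_mul]
    congr 3
    exact Finset.sum_congr rfl fun z _ => (int_ind p (Ta_meas M z k m)).2
  have h3 : ∑ z ∈ Tl i n k, (mu M p).real (Ta M z k m) = (Tl i n k).card * T := by
    rw [Finset.sum_congr rfl (fun z _ => ?_), Finset.sum_const, nsmul_eq_mul]
    have := Ta_shift M p 0 z k m
    rw [zero_add] at this
    exact this
  rw [h2, h3] at h1
  refine h1.trans ?_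
  have h4 : ((Tl i n k).card : ℝ) * T ≤ X * T := mul_le_mul_of_nonneg_right (hc.1 d i n k) hT0
  have h5 : Y * (((Tl i n k).card : ℝ) * T) ≤ Y * (X * T) := mul_le_mul_of_nonneg_left h4 hY0
  linarith

/-- **Expected number of spanning clusters.** -/
theorem span_mean (hs : S_sdet) (hc : S_scard) (ha : S_sana) (hd : 3 ≤ d) (M : Mod d) (hM : Nd M)
    (hQ : Qm M) : ∃ C ε : ℝ, 0 < ε ∧ ∀ (n : ℕ) (i : Fin d) (p : unitInterval), 1 ≤ n → pc M ≤ p →
      Integrable (fun ω => ((Sp M i n ω).ncard : ℝ)) (mu M p) ∧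
      ∫ ω, ((Sp M i n ω).ncard : ℝ) ∂(mu M p) ≤ C * (n : ℝ) ^ ((d : ℝ) - 1 - ε) := by
  obtain ⟨A, c, C0, hA1, hc0, h1, -⟩ := main4 hd M hM hQ
  obtain ⟨C, ε, hε, h2⟩ := ha d A hd hA1
  refine ⟨C, ε, hε, fun n i p hn hp => ⟨Sp_int hc M p i n, ?_⟩⟩
  refine h2 n _ hn ?_ ?_
  · have h3 : ∫ ω, ((Sp M i n ω).ncard : ℝ) ∂(mu M p) ≤
        ∫ _ω, ((n : ℝ) + 1) ^ (d - 1) ∂(mu M p) :=
      integral_mono (Sp_int hc M p i n) (integrable_const _) fun ω => hc.2 d M i n ω
    simpa using h3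
  · intro k m hkm hmn
    have hk : k ≤ m := by
      have h3 : k + 2 ≤ (k + 2) ^ A := by
        calc k + 2 = (k + 2) ^ 1 := (pow_one _).symm
          _ ≤ (k + 2) ^ A := Nat.pow_le_pow_right (by omega) hA1
      omega
    have hm1 : 1 ≤ m := le_trans (Nat.one_le_pow _ _ (by omega)) hkm
    have hmR : (1 : ℝ) ≤ m := by exact_mod_cast hm1
    refine (smean hs hc (by omega) M p i hk hmn hn).trans ?_
    have h4 : (mu M p).real (Ta M 0 k m) ≤ 2 * (m : ℝ) ^ (-(1 / 50 : ℝ)) := by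
      refine ((h1 k m hkm).2.1 p hp).trans ?_
      have h5 : (m : ℝ)⁻¹ ≤ 1 := inv_le_one_of_one_le₀ hmR
      have h6 : hol M p k m ≤ 1 := by
        unfold hol
        exact measureReal_le_one
      have h7 : 0 ≤ (m : ℝ) ^ (-(1 / 50 : ℝ)) := Real.rpow_nonneg (by linarith) _
      nlinarith
    gcongr

end

end Pool.Agent.Y990.OA
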