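import Pool.Agent.Y990.OA.SC
import Pool.Agent.Y232.OA.Card
import Pool.Agent.Y275.OA.Sana
import Pool.Agent.Y115.OA.Sdet

set_option autoImplicit false

open MeasureTheory Set

/-!
The expected number of spanning clusters of a cube: assembly (parts by helper115, helper232,
helper275).
-/

namespace Pool.Agent.Y990.OA

open Pool.Agent.Y990.CB

/-- The expected number of spanning clusters of a cube, for all `p ≥ p_c`. -/
theorem span_main {d : ℕ} (hd : 3 ≤ d) (M : Mod d) (hM : Nd M) (hQ : Qm M) :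
    ∃ C ε : ℝ, 0 < ε ∧ ∀ (n : ℕ) (i : Fin d) (p : unitInterval), 1 ≤ n → pc M ≤ p →
      Integrable (fun ω => ((Sp M i n ω).ncard : ℝ)) (mu M p) ∧
      ∫ ω, ((Sp M i n ω).ncard : ℝ) ∂(mu M p) ≤ C * (n : ℝ) ^ ((d : ℝ) - 1 - ε) :=
  span_mean Pool.Agent.Y115.OA.sdet Pool.Agent.Y232.OA.scard Pool.Agent.Y275.OA.sana hd M hM hQ

end Pool.Agent.Y990.OA
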