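import Pool.Agent.Y990.CB.Poly

set_option autoImplicit false

open MeasureTheory Set

/-!
Statements of the parts of the project OA (nearest-neighbour percolation on `Z^d` at criticality:
boxes of polynomial size are not connected to infinity too well).  Each `S_*` is to be proved in
its own file.
-/

namespace Pool.Agent.Y990.OA

open Pool.Agent.W783.PC (pm DepOn Inc)
open Pool.Agent.W424.PC (cfgOf)
open Pool.Agent.Y990.PL (Expl)
open Pool.Agent.Y990.CB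
open H974 (Ex Ok ind Pr)

noncomputable section

/-! ### Abstract concentration -/

open scoped Classical in
/-- The number of elements of `T` touching `X`. -/
def Vt {E W : Type} (T : Finset E) (t : E → Set W → Prop) (X : Set W) : ℝ :=
  ((T.filter (fun e => t e X)).card : ℝ)

/-- The sum of the centred elements of `T` touching `X`. -/
def Mt {E W : Type} (p : E → ℝ) (T : Finset E) (t : E → Set W → Prop) (X : Set W)
    (A : Finset E) : ℝ :=
  ∑ e ∈ T, ind (t e X) * (p e - ind (e ∈ A))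

/-- EXP: exponential supermartingale. -/
def S_exp : Prop := ∀ (E W : Type) [DecidableEq E] (S T : Finset E) (p : E → ℝ) (v : ℝ)
  (C : Finset E → Set W) (t : E → Set W → Prop), Ok p → Expl S p v C t → T ⊆ S →
  ∀ l : ℝ, 0 ≤ l → l ≤ 1 →
  Ex p S (fun A => Real.exp (l * Mt p T t (C A) A - l ^ 2 / 4 * Vt T t (C A))) ≤ 1

/-- CONC: the sum is rarely much larger than the square root of the number of its terms. -/
def S_conc : Prop := ∀ (E W : Type) [DecidableEq E] (S T : Finset E) (p : E → ℝ) (v : ℝ)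
  (C : Finset E → Set W) (t : E → Set W → Prop), Ok p → Expl S p v C t → T ⊆ S →
  ∀ K : ℝ, 1 ≤ K →
  Ex p S (fun A => ind (K * √(Vt T t (C A)) < Mt p T t (C A) A) * Mt p T t (C A) A) ≤
    (T.card : ℝ) ^ 2 * Real.exp (-(K ^ 2 / 2))

/-- IBP2: influence of a sum of functions of the clusters, on the coordinates of `T`. -/
def S_ibp2 : Prop := ∀ (E W : Type) [DecidableEq E] (S T : Finset E) (p : E → ℝ) (v : ℝ)
  (B : Finset W) (C : W → Finset E → Set W) (t : E → Set W → Prop) (g : W → Set W → ℝ),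
  Ok p → (∀ u ∈ B, Expl S p v (C u) t) → T ⊆ S → (∀ u X, 0 ≤ g u X ∧ g u X ≤ 1) →
  ∀ K : ℝ, 1 ≤ K →
  ∑ c ∈ T, p c * (1 - p c) * Ex p S (fun A =>
      ∑ u ∈ B, (g u (C u (A.erase c)) - g u (C u (insert c A)))) ≤
    K * Ex p S (fun A => ∑ u ∈ B, g u (C u A) * √(Vt T t (C u A))) +
      B.card * ((T.card : ℝ) ^ 2 * Real.exp (-(K ^ 2 / 2)))

/-! ### Isoperimetry -/

/-- LW: weak discrete Loomis-Whitney inequality. -/
def S_lw : Prop := ∀ d : ℕ, 2 ≤ d → ∃ C : ℝ, 1 ≤ C ∧ ∀ (U : Finset (Z d)) (s : ℝ), 0 ≤ s →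
  (∀ i : Fin d, (((U.image (fun z => Function.update z i 0)).card : ℕ) : ℝ) ≤ s) →
  (U.card : ℝ) ^ (((d : ℝ) - 1) / d) ≤ C * s

open scoped Classical in
/-- The vertices of the box which are not in `U` but have a neighbour in `U`. -/
def Bd {d : ℕ} (r : ℕ) (U : Finset (Z d)) : Finset (Z d) :=
  (Bf 0 r).filter (fun z => z ∉ U ∧ ∃ z' ∈ U, Nb z' z)

/-- ISO: isoperimetric inequality for small subsets of a box. -/
def S_iso : Prop := ∀ d : ℕ, 2 ≤ d → ∃ C κ : ℝ, 1 ≤ C ∧ 0 < κ ∧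
  ∀ (r : ℕ) (U : Finset (Z d)), U ⊆ Bf 0 r →
  (U.card : ℝ) ≤ κ * ((2 * r + 1 : ℕ) : ℝ) ^ d →
  (U.card : ℝ) ^ (((d : ℝ) - 1) / d) ≤ C * ((Bd r U).card : ℝ)

open scoped Classical in
/-- The vertices of the box whose `(k+1)`-neighbourhoods meet two sets of the family. -/
def Kc {d : ℕ} (k r : ℕ) (F : Finset (Set (Z d))) : Finset (Z d) :=
  (Bf 0 r).filter (fun z => ∃ X ∈ F, ∃ Y ∈ F, X ≠ Y ∧ (X ∩ Bo z (k + 1)).Nonempty ∧
    (Y ∩ Bo z (k + 1)).Nonempty)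

open scoped Classical in
/-- The vertices of the box whose `k`-neighbourhoods meet no set of the family. -/
def Hc {d : ℕ} (k r : ℕ) (F : Finset (Set (Z d))) : Finset (Z d) :=
  (Bf 0 r).filter (fun z => ∀ X ∈ F, ¬ (X ∩ Bo z k).Nonempty)

/-- TERR: disjoint sets in a box. -/
def S_terr : Prop := ∀ d : ℕ, 2 ≤ d → ∃ C : ℝ, 1 ≤ C ∧ ∀ (k r : ℕ) (F : Finset (Set (Z d))),
  (∀ X ∈ F, ∀ Y ∈ F, X ≠ Y → Disjoint X Y) →
  ∑ X ∈ F, ((X ∩ Bo 0 r).ncard : ℝ) ^ (((d : ℝ) - 1) / d) ≤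
    C * (((2 * k + 3 : ℕ) : ℝ) ^ d * ((Kc k r F).card : ℝ) + ((Hc k r F).card : ℝ) +
      ((2 * r + 1 : ℕ) : ℝ) ^ (d - 1))

open scoped Classical in
/-- Contribution of the thin sets of the family. -/
def Tn {d : ℕ} (m : ℕ) (t : ℝ) (F : Finset (Set (Z d))) : ℝ :=
  ∑ X ∈ F, if ((X ∩ Bo 0 (m + 1)).ncard : ℝ) < t then √((X ∩ Bo 0 (m + 1)).ncard : ℝ) else 0

/-- The sets of the family live in the box and contain vertices of all norms above. -/
def Cf {d : ℕ} (L : ℕ) (F : Finset (Set (Z d))) : Prop :=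
  (∀ X ∈ F, ∀ Y ∈ F, X ≠ Y → Disjoint X Y) ∧
  ∀ X ∈ F, X ⊆ Bo 0 L ∧ ∀ x ∈ X, ∀ j : ℕ, nm x ≤ j → j ≤ L → ∃ y ∈ X, nm y = j

/-- THIN: the total contribution of the thin sets. -/
def S_thin : Prop := ∀ (d a b L : ℕ) (t : ℝ) (F : Finset (Set (Z d))), b < L → 1 ≤ t →
  Cf L F → ∑ m ∈ Finset.Ico a b, Tn m t F ≤
    t * √t * ((2 * L + 1 : ℕ) : ℝ) ^ d / ((L : ℝ) - b)

/-! ### Clusters touching the frame -/

variable {d : ℕ}

open scoped Classical in
/-- The clusters of the box of radius `L` touching its frame. -/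
def Al (M : Mod d) (L : ℕ) (ω : M.ι → Bool) : Finset (Set (Z d)) :=
  (Ff (0 : Z d) L).image (fun x => cl M ω (Bo 0 L) x)

/-- The coordinates inside the box of radius `R`. -/
def Tf (M : Mod d) (R : ℕ) : Finset M.ι := (In_fin M (Bo_finite (0 : Z d) R)).toFinset

lemma coe_Tf (M : Mod d) (R : ℕ) : (Tf M R : Set M.ι) = In M (Bo 0 R) := by
  unfold Tf
  exact (In_fin M (Bo_finite (0 : Z d) R)).coe_toFinset

/-- The number of the clusters touching the frame. -/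
def Fn (M : Mod d) (L : ℕ) (A : Finset M.ι) : ℝ :=
  Nf 1 (Ff (0 : Z d) L) (fun u A => cl M (cfgOf A) (Bo 0 L) u ∩ Fr 0 L) A

open scoped Classical in
/-- The influence of the coordinates inside the box of radius `m` on `Fn`. -/
def Xi (M : Mod d) (p : unitInterval) (L m : ℕ) : ℝ :=
  ∑ c ∈ Tf M m, (p : ℝ) * (1 - p) *
    Ex (fun _ : M.ι => (p : ℝ)) (Tf M L) (fun A => Fn M L (A.erase c) - Fn M L (insert c A))

/-- Two distinct clusters touching the frame meet the box of radius `k` around `z`. -/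
def Kv (M : Mod d) (L : ℕ) (z : Z d) (k : ℕ) : Set (M.ι → Bool) :=
  {ω | ∃ x ∈ Bo z k, ∃ y ∈ Bo z k, Am M ω 0 L x ∧ Am M ω 0 L y ∧
    ¬ (G M ω (Bo 0 L)).Reachable x y}

/-- No cluster touching the frame meets the box of radius `k` around `z`. -/
def Ho (M : Mod d) (L : ℕ) (z : Z d) (k : ℕ) : Set (M.ι → Bool) :=
  {ω | ω ∉ Lk M (Bo 0 L) (Bo z k) (Fr 0 L)}

/-- The probability that the box of radius `k` is not connected to the frame of the box of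
radius `n`. -/
def hol (M : Mod d) (p : unitInterval) (k n : ℕ) : ℝ :=
  (mu M p).real {ω | ω ∉ Lk M (Bo 0 n) (Bo 0 k) (Fr 0 n)}

/-- The vertices `x`, `y` are in distinct clusters touching the frame. -/
def Ea (M : Mod d) (L : ℕ) (x y : Z d) : Set (M.ι → Bool) :=
  {ω | Am M ω 0 L x ∧ Am M ω 0 L y ∧ y ∉ cl M ω (Bo 0 L) x}

/-- CTC2: two distinct clusters touching the frame are in contact with reasonable probability. -/
def S_ctc2 : Prop := ∀ (d : ℕ) (M : Mod d) (p : unitInterval) (L : ℕ) (D : Set (Z d))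
  (x y : Z d), Nd M → Qm M → D ⊆ Bo 0 L → x ∈ D → y ∈ D → x ∉ Fr (0 : Z d) L →
  (mu M p).real (Ea M L x y) * (mu M p).real (Cn M D x y) ≤
    (mu M p).real (Ea M L x y ∩ Kt M L D x y)

/-- CV: the number of places with two clusters is bounded by the influence. -/
def S_cv : Prop := ∀ (d : ℕ) (M : Mod d), 1 ≤ d → Nd M → Qm M → ∃ C : ℝ, 1 ≤ C ∧
  ∀ k L r m : ℕ, 1 ≤ k → r + 4 * k + 1 ≤ m → m < L →
  ∑ z ∈ Bf (0 : Z d) r, (mu M (pc M)).real (Kv M L z k) ≤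
    C * ((k : ℝ) + 1) ^ (2 * d ^ 2 + 3 * d) * Xi M (pc M) L m

/-- AL1: the family of the clusters touching the frame. -/
def S_al1 : Prop := ∀ (d : ℕ) (M : Mod d) (L : ℕ) (ω : M.ι → Bool), Cf L (Al M L ω)

/-- AL2: sums over the family. -/
def S_al2 : Prop := ∀ (d : ℕ) (M : Mod d) (L : ℕ) (ω : M.ι → Bool) (f : Set (Z d) → ℝ),
  ∑ u ∈ Ff (0 : Z d) L,
    (1 : ℝ) / (max 1 (cl M ω (Bo 0 L) u ∩ Fr 0 L).ncard : ℕ) * f (cl M ω (Bo 0 L) u) =
  ∑ X ∈ Al M L ω, f X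

/-- AL3: the number of coordinates of a box touching a set. -/
def S_al3 : Prop := ∀ (d : ℕ) (M : Mod d) (m : ℕ) (X : Set (Z d)),
  Vt (Tf M m) (tc M) X ≤ 4 * d * ((X ∩ Bo 0 (m + 1)).ncard : ℝ)

/-- AL4: the two kinds of exceptional places. -/
def S_al4 : Prop := ∀ (d : ℕ) (M : Mod d) (L k r : ℕ) (ω : M.ι → Bool) (z : Z d), r ≤ L →
  z ∈ Bf (0 : Z d) r → k + 1 + r ≤ L →
  (z ∈ Kc k r (Al M L ω) ↔ ω ∈ Kv M L z (k + 1)) ∧
  (z ∈ Hc k r (Al M L ω) ↔ ω ∈ Ho M L z k)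

open scoped Classical in
/-- The expected contribution of the thin clusters. -/
def Th (M : Mod d) (p : unitInterval) (L m : ℕ) (t : ℝ) : ℝ :=
  Ex (fun _ : M.ι => (p : ℝ)) (Tf M L) (fun A => Tn m t (Al M L (cfgOf A)))

/-- LEV: the main inequality at one level. -/
def S_lev : Prop := ∀ d : ℕ, 2 ≤ d → ∃ C : ℝ, 1 ≤ C ∧
  ∀ (M : Mod d) (p : unitInterval) (k m L : ℕ) (t K : ℝ), k + 2 + m ≤ L → 1 ≤ t → 1 ≤ K →
  Xi M p L m ≤ C * K * (Th M p L m t + t ^ (-(((d : ℝ) - 2) / (2 * d))) *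
    (((2 * k + 3 : ℕ) : ℝ) ^ d * ∑ z ∈ Bf (0 : Z d) (m + 1), (mu M p).real (Kv M L z (k + 1)) +
      ∑ z ∈ Bf (0 : Z d) (m + 1), (mu M p).real (Ho M L z k) +
      ((2 * m + 3 : ℕ) : ℝ) ^ (d - 1))) +
    ((Ff (0 : Z d) L).card : ℝ) * (((Tf M m).card : ℝ) ^ 2 * Real.exp (-(K ^ 2 / 2)))

/-- MON: monotonicity in the box and translation. -/
def S_mon : Prop := ∀ (d : ℕ) (M : Mod d) (p : unitInterval) (k L : ℕ) (z : Z d), 1 ≤ L →
  nm z + k ≤ L →
  (mu M p).real (Ho M L z k) ≤ hol M p k (2 * L) ∧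
  (mu M p).real (Ta M 0 k (2 * L)) ≤ (mu M p).real (Kv M L z k)

/-- XI: elementary properties of the influence. -/
def S_xi : Prop := ∀ (d : ℕ) (M : Mod d) (p : unitInterval) (L m m' : ℕ), m ≤ m' →
  0 ≤ Xi M p L m ∧ Xi M p L m ≤ Xi M p L m' ∧
  ((Tf M m).card : ℝ) ≤ 4 * d * ((2 * m + 1 : ℕ) : ℝ) ^ d ∧
  ((Ff (0 : Z d) L).card : ℝ) ≤ ((2 * L + 1 : ℕ) : ℝ) ^ d

/-- TWO3: two distinct crossing clusters are much less likely than the sum of the probability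
of no crossing cluster and the inverse of the radius. -/
def S_two3 : Prop := ∀ (d : ℕ) (M : Mod d), 3 ≤ d → Nd M → Qm M → ∃ A : ℕ,
  ∀ k L : ℕ, (k + 2) ^ A ≤ L → (mu M (pc M)).real (Ta M 0 (k + 1) (2 * L)) ≤
    (L : ℝ) ^ (-(1 / 48 : ℝ)) * ((L : ℝ)⁻¹ + hol M (pc M) k (2 * L))

/-- CHAIN: connection along a chain of boxes. -/
def S_chain : Prop := ∀ (d : ℕ) (M : Mod d) (p : unitInterval) (i : Fin d) (k N l : ℕ),
  k + 1 ≤ l → l + 1 ≤ N →
  (mu M p).real {ω | ω ∉ Lk M (Bo 0 (2 * N)) (Bo 0 k) (Bo (Pi.single i (N : ℤ)) k)} ≤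
    (N + 1) * hol M p k (l + 1) + N * (mu M p).real (Ta M 0 (k + 1) l)

/-- HOL: holes of polynomial size have at least polynomial probability. -/
def S_hol : Prop := ∀ (d : ℕ) (M : Mod d), 3 ≤ d → Nd M → Qm M → ∃ A : ℕ, ∃ c : ℝ, 0 < c ∧
  ∀ k n : ℕ, (k + 2) ^ A ≤ n → c / n ≤ hol M (pc M) k n

end

end Pool.Agent.Y990.OA
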