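import Pool.Agent.Y990.OA.Stm

set_option autoImplicit false

open MeasureTheory Set

/-!
Further statements of the project OA: chain of boxes with a general step.
-/

namespace Pool.Agent.Y990.OA

open Pool.Agent.W783.PC (pm DepOn Inc)
open Pool.Agent.Y990.CB

noncomputable section

/-- CHAIN2: connection along a chain of boxes with centres `0, w, 2w, ..., Jw` on an axis. -/
def S_chain2 : Prop := ∀ (d : ℕ) (M : Mod d) (p : unitInterval) (i : Fin d) (k J w l : ℕ),
  k + w ≤ l → l + w ≤ J * w →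
  (mu M p).real {ω | ω ∉ Lk M (Bo 0 (2 * (J * w))) (Bo 0 k)
      (Bo (Pi.single i ((J * w : ℕ) : ℤ)) k)} ≤
    (J + 1) * hol M p k (l + w) + J * (mu M p).real (Ta M 0 (k + w) l)

/-- HOL2: holes of polynomial size have at least polynomial probability. -/
def S_hol2 : Prop := ∀ (d : ℕ) (M : Mod d), 3 ≤ d → Nd M → Qm M → ∃ A : ℕ, ∃ c : ℝ, 0 < c ∧
  ∀ k n : ℕ, (k + 2) ^ A ≤ n → c * ((k : ℝ) + 1) / n ≤ hol M (pc M) k n

end

end Pool.Agent.Y990.OA
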