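import Pool.Agent.Y990.OA.Tail

set_option autoImplicit false

open MeasureTheory Set

/-!
Further statements of the project OA: two crossing clusters and one, a row of boxes, many holes.
-/

namespace Pool.Agent.Y990.OA

open Pool.Agent.Y990.CB

noncomputable section

/-- BK2: the probability of two crossing clusters is at most the square of that of one. -/
def S_bk2 : Prop := ∀ (d : ℕ) (M : Mod d) (p : unitInterval) (k n : ℕ),
  (mu M p).real (Ta M 0 k n) ≤ (1 - hol M p k n) ^ 2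

/-- The centres of a row of disjoint boxes of radius `m`. -/
def rw0 {d : ℕ} (i : Fin d) (m j : ℕ) : Z d := Pi.single i ((j * (2 * m + 1) : ℕ) : ℤ)

/-- ROW: the crossings of disjoint boxes are independent. -/
def S_row : Prop := ∀ (d : ℕ) (M : Mod d) (p : unitInterval) (i : Fin d) (k m J : ℕ),
  (mu M p).real {ω | ∀ j : ℕ, j < J →
    ω ∈ Lk M (Bo (rw0 i m j) m) (Bo (rw0 i m j) k) (Fr (rw0 i m j) m)} ≤ (1 - hol M p k m) ^ J

/-- ASU: almost surely every large box contains holes of polynomial size. -/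
def S_asu : Prop := ∀ (d : ℕ) (M : Mod d) (p : unitInterval) (A : ℕ) (c : ℝ), 1 ≤ d → 1 ≤ A →
  0 < c → (∀ k n : ℕ, (k + 2) ^ A ≤ n → c / n ≤ hol M p k n) →
  ∀ᵐ ω ∂(mu M p), ∃ n0 : ℕ, ∀ n : ℕ, n0 ≤ n → ∀ k : ℕ, (k + 2) ^ (4 * A) ≤ n →
    ∃ z ∈ Bo (0 : Z d) n, ω ∉ Lk M (Bo z ((k + 2) ^ A)) (Bo z k) (Fr z ((k + 2) ^ A))

/-- HOL3: holes of polynomial size have at least polynomial probability, of exponent less than
one. -/
def S_hol3 : Prop := ∀ (d : ℕ) (M : Mod d), 3 ≤ d → Nd M → Qm M → ∃ A : ℕ, ∃ c : ℝ, 1 ≤ A ∧ 0 < c ∧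
  ∀ k w n : ℕ, k + 1 ≤ w → (w + 1) ^ A ≤ n → c * (w : ℝ) / n ≤ hol M (pc M) k n

end

end Pool.Agent.Y990.OA
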