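import Pool.Agent.Y990.OA.Main3

set_option autoImplicit false

open MeasureTheory Set

/-!
Statements on the number of spanning clusters of a cube (project OA).
-/

namespace Pool.Agent.Y990.OA

open Pool.Agent.Y990.CB
open H974 (ind)

noncomputable section

/-- The cube `{0, ..., n}^d`. -/
def Qb (d n : ℕ) : Set (Z d) := {x | ∀ j, 0 ≤ x j ∧ x j ≤ n}

/-- The clusters of the cube connecting the two faces orthogonal to the direction `i`. -/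
def Sp {d : ℕ} (M : Mod d) (i : Fin d) (n : ℕ) (ω : M.ι → Bool) : Set (Set (Z d)) :=
  {X | ∃ x ∈ Qb d n, x i = 0 ∧ X = cl M ω (Qb d n) x ∧ ∃ y ∈ X, y i = n}

/-- The centres of tiles covering the middle section of the cube. -/
def Tl {d : ℕ} (i : Fin d) (n k : ℕ) : Finset (Z d) :=
  Fintype.piFinset (fun j => if j = i then {((n / 2 : ℕ) : ℤ)} else
    (Finset.range (n / (2 * k + 1) + 2)).image (fun t : ℕ => ((t * (2 * k + 1) : ℕ) : ℤ)))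

/-- SDET: deterministic bound for the number of spanning clusters. -/
def S_sdet : Prop := ∀ (d : ℕ) (M : Mod d) (i : Fin d) (k m n : ℕ) (ω : M.ι → Bool), 2 ≤ d →
  k ≤ m → 2 * m ≤ n → 1 ≤ n → ((Sp M i n ω).ncard : ℝ) ≤ ((n / (2 * k + 1) + 2 : ℕ) : ℝ) ^ (d - 1) +
    ((2 * k + 1 : ℕ) : ℝ) ^ d * ∑ z ∈ Tl i n k, ind (ω ∈ Ta M z k m) +
    2 * d * (m + k + 1) * ((n : ℝ) + 1) ^ (d - 2)

/-- SCARD: the number of tiles; the trivial bound for the number of spanning clusters. -/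
def S_scard : Prop := (∀ (d : ℕ) (i : Fin d) (n k : ℕ),
    ((Tl i n k).card : ℝ) ≤ ((n / (2 * k + 1) + 2 : ℕ) : ℝ) ^ (d - 1)) ∧
  ∀ (d : ℕ) (M : Mod d) (i : Fin d) (n : ℕ) (ω : M.ι → Bool),
    ((Sp M i n ω).ncard : ℝ) ≤ ((n : ℝ) + 1) ^ (d - 1)

/-- SANA: choice of the scales. -/
def S_sana : Prop := ∀ d A : ℕ, 3 ≤ d → 1 ≤ A → ∃ C ε : ℝ, 0 < ε ∧ ∀ (n : ℕ) (f : ℝ), 1 ≤ n →
  f ≤ ((n : ℝ) + 1) ^ (d - 1) →
  (∀ k m : ℕ, (k + 2) ^ A ≤ m → 2 * m ≤ n → f ≤ ((n / (2 * k + 1) + 2 : ℕ) : ℝ) ^ (d - 1) *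
    (1 + ((2 * k + 1 : ℕ) : ℝ) ^ d * (2 * (m : ℝ) ^ (-(1 / 50 : ℝ)))) +
    2 * d * (m + k + 1) * ((n : ℝ) + 1) ^ (d - 2)) →
  f ≤ C * (n : ℝ) ^ ((d : ℝ) - 1 - ε)

end

end Pool.Agent.Y990.OA
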